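import Pool.Agent.W301.SS.Core
import Pool.Agent.W93.DC6

set_option autoImplicit false

/-! Families of integers with few large frequencies: second moments, and primes in the intervals behind the sums
of the elements of an arbitrary set and the elements of the family. -/

namespace Pool.Agent.J4.H93.SF
open Finset
open Pool.Agent.H807R2.Dav
open Pool.Agent.W301.SS

/-- the transform of a family -/
noncomputable def FF (S : Finset ℕ) (v : ℕ → ℤ) (x : ℝ) : ℂ := ∑ n ∈ S, ee ((v n : ℝ) * x)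

lemma FF_le (S : Finset ℕ) (v : ℕ → ℤ) (x : ℝ) : ‖FF S v x‖ ≤ S.card := by
  unfold FF
  refine (norm_sum_le _ _).trans (le_of_eq ?_)
  rw [sum_congr rfl (fun n _ => norm_ee _), sum_const, nsmul_eq_mul, mul_one]

lemma FF_red (S : Finset ℕ) (v : ℕ → ℤ) {M : ℕ} (hM : 1 ≤ M) (r r' : ℕ) (hr' : r' < M) :
    FF S v (((r : ℝ) - r') / M) = FF S v ((((r + (M - r')) % M : ℕ) : ℝ) / M) := by
  unfold FF
  apply sum_congr rfl
  intro n _
  obtain ⟨t, ht⟩ : ∃ t, t = (r + (M - r')) % M := ⟨_, rfl⟩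
  obtain ⟨k, hk⟩ : ∃ k : ℕ, r + (M - r') = t + M * k := ⟨_, by rw [ht]; exact (Nat.mod_add_div _ M).symm⟩
  rw [← ht]
  have hM0 : (M : ℝ) ≠ 0 := by positivity
  have h1 : (r : ℝ) + (M - r') = t + M * (k : ℝ) := by
    have h2 : ((r + (M - r') : ℕ) : ℝ) = ((t + M * k : ℕ) : ℝ) := by rw [hk]
    rw [Nat.cast_add, Nat.cast_sub hr'.le] at h2
    push_cast at h2
    exact h2
  have h3 : (v n : ℝ) * (((r : ℝ) - r') / M) = (v n : ℝ) * ((t : ℝ) / M) + ((v n * ((k : ℤ) - 1) : ℤ) : ℝ) := by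
    have h4 : (r : ℝ) - r' = t + M * ((k : ℝ) - 1) := by linarith
    rw [h4]
    push_cast
    field_simp
  rw [h3, ee_add_int]

lemma t_inj_right {M : ℕ} (r r' r'' : ℕ) (h' : r' < M) (h'' : r'' < M)
    (h : (r + (M - r')) % M = (r + (M - r'')) % M) : r' = r'' := by
  have h1 := (Nat.modEq_iff_dvd).1 (show (r + (M - r')) ≡ (r + (M - r'')) [MOD M] from h)
  have h2 : (((r + (M - r'') : ℕ) : ℤ) - ((r + (M - r') : ℕ) : ℤ)) = (r' : ℤ) - r'' := by
    push_cast [Nat.cast_sub h'.le, Nat.cast_sub h''.le]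
    ring
  rw [h2] at h1
  have h3 := Int.eq_zero_of_abs_lt_dvd h1 (by rw [abs_lt]; constructor <;> omega)
  omega

lemma t_inj_left {M : ℕ} (r r' r'' : ℕ) (h' : r' < M) (h'' : r'' < M)
    (h : (r' + (M - r)) % M = (r'' + (M - r)) % M) : r' = r'' := by
  have h1 := (Nat.modEq_iff_dvd).1 (show (r' + (M - r)) ≡ (r'' + (M - r)) [MOD M] from h)
  have h2 : (((r'' + (M - r) : ℕ) : ℤ) - ((r' + (M - r) : ℕ) : ℤ)) = (r'' : ℤ) - r' := by
    push_cast
    ring
  rw [h2] at h1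
  have h3 := Int.eq_zero_of_abs_lt_dvd h1 (by rw [abs_lt]; constructor <;> omega)
  omega

open Classical in
/-- **Second moments.** -/
lemma var_le {M : ℕ} (hM : 1 ≤ M) (S : Finset ℕ) (v : ℕ → ℤ) (c : ℕ → ℂ) (δ K : ℝ) (hδ : 0 ≤ δ)
    (hK : (((range M).filter (fun t : ℕ => δ * S.card < ‖FF S v ((t : ℝ) / M)‖)).card : ℝ) ≤ K) :
    ∑ n ∈ S, ‖∑ r ∈ range M, c r * ee ((v n : ℝ) * ((r : ℝ) / M))‖ ^ 2 ≤
      S.card * (K * ∑ r ∈ range M, ‖c r‖ ^ 2 + δ * (∑ r ∈ range M, ‖c r‖) ^ 2) := by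
  obtain ⟨T, hT⟩ : ∃ T, T = (range M).filter (fun t : ℕ => δ * S.card < ‖FF S v ((t : ℝ) / M)‖) := ⟨_, rfl⟩
  rw [← hT] at hK
  have h1 : ((∑ n ∈ S, ‖∑ r ∈ range M, c r * ee ((v n : ℝ) * ((r : ℝ) / M))‖ ^ 2 : ℝ) : ℂ) =
      ∑ r ∈ range M, ∑ r' ∈ range M, c r * (starRingEnd ℂ) (c r') * FF S v (((r : ℝ) - r') / M) := by
    push_cast
    have e1 : ∀ n ∈ S, ((‖∑ r ∈ range M, c r * ee ((v n : ℝ) * ((r : ℝ) / M))‖ : ℂ)) ^ 2 =
        ∑ r ∈ range M, ∑ r' ∈ range M, c r * (starRingEnd ℂ) (c r') * ee ((v n : ℝ) * (((r : ℝ) - r') / M)) := by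
      intro n _
      rw [← Complex.mul_conj', map_sum, sum_mul_sum]
      apply sum_congr rfl
      intro r _
      apply sum_congr rfl
      intro r' _
      rw [map_mul, star_ee]
      have e2 : (v n : ℝ) * (((r : ℝ) - r') / M) = (v n : ℝ) * ((r : ℝ) / M) + -((v n : ℝ) * ((r' : ℝ) / M)) := by ring
      rw [e2, ee_add]
      ring
    rw [sum_congr rfl e1, sum_comm]
    apply sum_congr rfl
    intro r _
    rw [sum_comm]
    apply sum_congr rfl
    intro r' _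
    unfold FF
    rw [mul_sum]
  have h2 : ∑ n ∈ S, ‖∑ r ∈ range M, c r * ee ((v n : ℝ) * ((r : ℝ) / M))‖ ^ 2 ≤
      ∑ r ∈ range M, ∑ r' ∈ range M, ‖c r‖ * ‖c r'‖ * ‖FF S v (((r : ℝ) - r') / M)‖ := by
    have h3 : (0 : ℝ) ≤ ∑ n ∈ S, ‖∑ r ∈ range M, c r * ee ((v n : ℝ) * ((r : ℝ) / M))‖ ^ 2 :=
      sum_nonneg fun _ _ => by positivity
    rw [← Real.norm_of_nonneg h3, ← Complex.norm_real, h1]
    refine (norm_sum_le _ _).trans (sum_le_sum fun r _ => ?_)
    refine (norm_sum_le _ _).trans (sum_le_sum fun r' _ => ?_)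
    rw [norm_mul, norm_mul, RCLike.norm_conj]
  refine h2.trans ?_
  clear h2 h1
  have h4 : ∀ r ∈ range M, ∀ r' ∈ range M, ‖c r‖ * ‖c r'‖ * ‖FF S v (((r : ℝ) - r') / M)‖ ≤
      S.card * (((if (r + (M - r')) % M ∈ T then ‖c r‖ ^ 2 / 2 else 0) +
        (if (r + (M - r')) % M ∈ T then ‖c r'‖ ^ 2 / 2 else 0)) + δ * (‖c r‖ * ‖c r'‖)) := by
    intro r _ r' hr'
    rw [mem_range] at hr'
    rw [FF_red S v hM r r' hr']
    have hc : 0 ≤ ‖c r‖ * ‖c r'‖ := by positivity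
    have hS : (0 : ℝ) ≤ S.card := Nat.cast_nonneg _
    split_ifs with h
    · have h5 := FF_le S v ((((r + (M - r')) % M : ℕ) : ℝ) / M)
      calc ‖c r‖ * ‖c r'‖ * ‖FF S v ((((r + (M - r')) % M : ℕ) : ℝ) / M)‖ ≤ ‖c r‖ * ‖c r'‖ * S.card :=
            mul_le_mul_of_nonneg_left h5 hc
        _ = S.card * (‖c r‖ * ‖c r'‖) := by ring
        _ ≤ _ := by
            apply mul_le_mul_of_nonneg_left _ hS
            have := sq_nonneg (‖c r‖ - ‖c r'‖)
            have := mul_nonneg hδ hc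
            nlinarith
    · have h5 : ‖FF S v ((((r + (M - r')) % M : ℕ) : ℝ) / M)‖ ≤ δ * S.card := by
        by_contra hcon
        apply h
        rw [hT, mem_filter]
        exact ⟨mem_range.2 (Nat.mod_lt _ (by omega)), not_le.1 hcon⟩
      calc ‖c r‖ * ‖c r'‖ * ‖FF S v ((((r + (M - r')) % M : ℕ) : ℝ) / M)‖ ≤ ‖c r‖ * ‖c r'‖ * (δ * S.card) :=
            mul_le_mul_of_nonneg_left h5 hc
        _ = _ := by ring
  refine (sum_le_sum fun r hr => sum_le_sum fun r' hr' => h4 r hr r' hr').trans ?_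
  simp only [← mul_sum, sum_add_distrib]
  apply mul_le_mul_of_nonneg_left _ (Nat.cast_nonneg _)
  apply add_le_add
  · have h5 : ∑ r ∈ range M, ∑ r' ∈ range M, (if (r + (M - r')) % M ∈ T then ‖c r‖ ^ 2 / 2 else 0) ≤
        K * ∑ r ∈ range M, ‖c r‖ ^ 2 / 2 := by
      rw [mul_sum]
      apply sum_le_sum
      intro r _
      rw [← sum_filter, sum_const, nsmul_eq_mul]
      apply mul_le_mul_of_nonneg_right _ (by positivity)
      refine le_trans ?_ hK
      have h6 : ((range M).filter (fun r' => (r + (M - r')) % M ∈ T)).card ≤ T.card := by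
        apply card_le_card_of_injOn (fun r' => (r + (M - r')) % M)
        · intro r' hr'
          rw [mem_coe, mem_filter] at hr'
          exact hr'.2
        · intro r' hr' r'' hr'' h
          rw [mem_coe, mem_filter, mem_range] at hr' hr''
          exact t_inj_right r r' r'' hr'.1 hr''.1 h
      exact_mod_cast h6
    have h6 : ∑ r ∈ range M, ∑ r' ∈ range M, (if (r + (M - r')) % M ∈ T then ‖c r'‖ ^ 2 / 2 else 0) ≤
        K * ∑ r ∈ range M, ‖c r‖ ^ 2 / 2 := by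
      rw [sum_comm, mul_sum]
      apply sum_le_sum
      intro r _
      rw [← sum_filter, sum_const, nsmul_eq_mul]
      apply mul_le_mul_of_nonneg_right _ (by positivity)
      refine le_trans ?_ hK
      have h6 : ((range M).filter (fun r' => (r' + (M - r)) % M ∈ T)).card ≤ T.card := by
        apply card_le_card_of_injOn (fun r' => (r' + (M - r)) % M)
        · intro r' hr'
          rw [mem_coe, mem_filter] at hr'
          exact hr'.2
        · intro r' hr' r'' hr'' h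
          rw [mem_coe, mem_filter, mem_range] at hr' hr''
          exact t_inj_left r r' r'' hr'.1 hr''.1 h
      exact_mod_cast h6
    rw [← sum_div] at h5 h6
    linarith
  · apply le_of_eq
    congr 1
    rw [sq, sum_mul_sum]
    apply sum_congr rfl
    intro r _
    rw [mul_sum]

/-- the moment of order `2 p` of the transform is bounded (up to the normalisation) -/
def Law (M p : ℕ) (C₁ : ℝ) (S : Finset ℕ) (v : ℕ → ℤ) : Prop :=
  ∑ t ∈ range M, ‖FF S v ((t : ℝ) / M)‖ ^ (2 * p) ≤ C₁ * (S.card : ℝ) ^ (2 * p)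

open Classical in
lemma Law.few {M p : ℕ} {C₁ : ℝ} {S : Finset ℕ} {v : ℕ → ℤ} (h : Law M p C₁ S v) (hS : 0 < S.card) (δ : ℝ) (hδ : 0 < δ) :
    (((range M).filter (fun t : ℕ => δ * S.card < ‖FF S v ((t : ℝ) / M)‖)).card : ℝ) ≤ C₁ / δ ^ (2 * p) := by
  have hS0 : (0 : ℝ) < S.card := by exact_mod_cast hS
  rw [le_div_iff₀ (by positivity)]
  have h1 : (((range M).filter (fun t : ℕ => δ * S.card < ‖FF S v ((t : ℝ) / M)‖)).card : ℝ) * (δ * S.card) ^ (2 * p) ≤
      C₁ * (S.card : ℝ) ^ (2 * p) := by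
    refine le_trans ?_ h
    rw [← nsmul_eq_mul, ← sum_const]
    calc ∑ t ∈ (range M).filter (fun t : ℕ => δ * S.card < ‖FF S v ((t : ℝ) / M)‖), (δ * S.card) ^ (2 * p) ≤
        ∑ t ∈ (range M).filter (fun t : ℕ => δ * S.card < ‖FF S v ((t : ℝ) / M)‖), ‖FF S v ((t : ℝ) / M)‖ ^ (2 * p) := by
          apply sum_le_sum
          intro t ht
          exact pow_le_pow_left₀ (by positivity) (mem_filter.1 ht).2.le _
      _ ≤ _ := sum_le_sum_of_subset_of_nonneg (filter_subset _ _) fun _ _ _ => by positivity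
  rw [mul_pow, ← mul_assoc] at h1
  exact le_of_mul_le_mul_right h1 (by positivity)

lemma Law.shift {M p : ℕ} {C₁ : ℝ} {S : Finset ℕ} {v : ℕ → ℤ} (h : Law M p C₁ S v) (s : ℤ) :
    Law M p C₁ S (fun n => v n + s) := by
  unfold Law at h ⊢
  refine le_trans (le_of_eq ?_) h
  apply sum_congr rfl
  intro t _
  congr 1
  have e : FF S (fun n => v n + s) ((t : ℝ) / M) = ee ((s : ℝ) * ((t : ℝ) / M)) * FF S v ((t : ℝ) / M) := by
    unfold FF
    rw [mul_sum]
    apply sum_congr rfl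
    intro n _
    rw [← ee_add]
    congr 1
    push_cast
    ring
  rw [e, norm_mul, norm_ee, one_mul]

lemma Law.nonneg {M p : ℕ} {C₁ : ℝ} {S : Finset ℕ} {v : ℕ → ℤ} (h : Law M p C₁ S v) (hS : 0 < S.card) : 0 ≤ C₁ := by
  have hS0 : (0 : ℝ) < S.card := by exact_mod_cast hS
  unfold Law at h
  have h1 : 0 ≤ ∑ t ∈ range M, ‖FF S v ((t : ℝ) / M)‖ ^ (2 * p) := sum_nonneg fun _ _ => by positivity
  have h2 : 0 ≤ C₁ * (S.card : ℝ) ^ (2 * p) := h1.trans h
  exact nonneg_of_mul_nonneg_left h2 (by positivity)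

end Pool.Agent.J4.H93.SF
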