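import Pool.Agent.J4.H93.SF.SF1

set_option autoImplicit false

/-! Primes in the intervals behind the sums `a + v n`: comparison of two lengths. -/

namespace Pool.Agent.J4.H93.SF
open Finset
open Pool.Agent.H807R2.Dav
open Pool.Agent.W301.SS

/-- sum of `log p` over `a ∈ A` and the primes in `(a + b, a + b + H]` -/
noncomputable def th (A : Finset ℕ) (b H : ℕ) : ℝ := ∑ a ∈ A, ∑ h ∈ Ioc 0 H, om (a + b + h)

/-- sum of `log p` over `a ∈ A`, `n ∈ Ω` and the primes in `(a + u n, a + u n + H]` -/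
noncomputable def TF (A Ω : Finset ℕ) (u : ℕ → ℕ) (H : ℕ) : ℝ := ∑ n ∈ Ω, th A (u n) H

lemma th_eq (A : Finset ℕ) (b H : ℕ) : th A b H = TT A {b} H := by
  unfold th TT
  apply sum_congr rfl
  intro a _
  rw [sum_singleton]

lemma TF_fourier {N M : ℕ} (hNM : N < M) (A Ω : Finset ℕ) (u : ℕ → ℕ) (v : ℕ → ℤ) (hu : ∀ n ∈ Ω, (u n : ℤ) = v n) (H : ℕ)
    (hN : ∀ a ∈ A, ∀ n ∈ Ω, a + u n + H ≤ N) :
    (M : ℂ) * ((TF A Ω u H : ℝ) : ℂ) = ∑ n ∈ Ω, ∑ r ∈ range M, (SP N (-((r : ℝ) / M)) *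
      (FA A ((r : ℝ) / M) * FK H ((r : ℝ) / M))) * ee ((v n : ℝ) * ((r : ℝ) / M)) := by
  unfold TF
  push_cast
  rw [mul_sum]
  apply sum_congr rfl
  intro n hn
  have h1 := TT_fourier hNM A {u n} H (by
    intro a ha b hb
    rw [mem_singleton] at hb
    rw [hb]
    exact hN a ha n hn)
  rw [th_eq, h1]
  apply sum_congr rfl
  intro r _
  have h2 : FA {u n} ((r : ℝ) / M) = ee ((v n : ℝ) * ((r : ℝ) / M)) := by
    unfold FA
    rw [sum_singleton, ← hu n hn]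
    rfl
  rw [h2]
  ring

lemma SP_neg (N : ℕ) (x : ℝ) : ‖SP N (-x)‖ = ‖SP N x‖ := by
  have h : SP N (-x) = (starRingEnd ℂ) (SP N x) := by
    unfold SP
    rw [map_sum]
    apply sum_congr rfl
    intro n _
    rw [map_mul, star_ee, Complex.conj_ofReal, mul_neg]
  rw [h, RCLike.norm_conj]

lemma SP_sq {N M : ℕ} (hN : 1 ≤ N) (hNM : N < M) :
    ∑ r ∈ range M, ‖SP N (-((r : ℝ) / M))‖ ^ 2 ≤ M * (2 * N * Real.log N) := by
  have h1 := Pool.Agent.W93.DG.FF_pars om N M (by omega) hNM.le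
  have h2 : ∑ r ∈ range M, ‖SP N (-((r : ℝ) / M))‖ ^ 2 = ∑ r ∈ range M, ‖Pool.Agent.W93.DG.FF om N M r‖ ^ 2 := by
    apply sum_congr rfl
    intro r _
    rw [SP_neg]
    rfl
  rw [h2, h1]
  apply mul_le_mul_of_nonneg_left _ (Nat.cast_nonneg _)
  have hN1 : (1 : ℝ) ≤ N := by exact_mod_cast hN
  have h3 : ∀ n ∈ Icc 1 N, om n ^ 2 ≤ Real.log N * om n := by
    intro n hn
    rw [mem_Icc] at hn
    have h4 : om n ≤ Real.log N := by
      unfold om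
      split_ifs
      · apply Real.log_le_log
        · exact_mod_cast (by omega : 0 < n)
        · exact_mod_cast hn.2
      · exact Real.log_nonneg hN1
    rw [sq]
    exact mul_le_mul_of_nonneg_right h4 (om_nonneg n)
  refine (sum_le_sum h3).trans ?_
  rw [← mul_sum, sum_om]
  have h5 := Chebyshev.theta_le_log4_mul_x (x := N) (Nat.cast_nonneg N)
  have h6 : Real.log 4 * N ≤ 2 * N := mul_le_mul_of_nonneg_right log4 (Nat.cast_nonneg N)
  calc Real.log N * Chebyshev.theta N ≤ Real.log N * (2 * N) :=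
        mul_le_mul_of_nonneg_left (h5.trans h6) (Real.log_nonneg hN1)
    _ = _ := by ring

lemma FK_le (H : ℕ) (hH : 1 ≤ H) (x : ℝ) : ‖FK H x / H‖ ≤ 1 := by
  have hH0 : (0 : ℝ) < H := by exact_mod_cast hH
  rw [norm_div, Complex.norm_natCast, div_le_one hH0]
  unfold FK
  refine (norm_sum_le _ _).trans (le_of_eq ?_)
  rw [sum_congr rfl (fun n _ => norm_ee _), sum_const, Nat.card_Ioc, nsmul_eq_mul, mul_one, Nat.sub_zero]

open Classical in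
/-- **Comparison of two lengths.** -/
theorem TF_diff {N M : ℕ} (hN1 : 1 ≤ N) (hNM : N < M) (A S Ω : Finset ℕ) (hΩ : Ω ⊆ S) (u : ℕ → ℕ) (v : ℕ → ℤ)
    (hu : ∀ n ∈ Ω, (u n : ℤ) = v n) (hAM : ∀ a ∈ A, a < M) (H H1 : ℕ) (hH : 1 ≤ H) (hHH : H ≤ H1)
    (hN : ∀ a ∈ A, ∀ n ∈ Ω, a + u n + H1 ≤ N) (W : ℝ)
    (hr : ∀ r ∈ range M, ‖SP N (-((r : ℝ) / M))‖ * ‖FK H ((r : ℝ) / M) / H - FK H1 ((r : ℝ) / M) / H1‖ ≤ W)
    (δ K : ℝ) (hδ : 0 ≤ δ)
    (hK : (((range M).filter (fun t : ℕ => δ * S.card < ‖FF S v ((t : ℝ) / M)‖)).card : ℝ) ≤ K) :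
    (TF A Ω u H / H - TF A Ω u H1 / H1) ^ 2 ≤
      Ω.card * (S.card * (A.card * (K * W ^ 2 / M + 8 * δ * N * Real.log N))) := by
  have hM : 1 ≤ M := by omega
  have hM0 : (0 : ℝ) < M := by exact_mod_cast hM
  have hK0 : 0 ≤ K := (Nat.cast_nonneg _).trans hK
  have hN0 : (1 : ℝ) ≤ N := by exact_mod_cast hN1
  have hlog : 0 ≤ Real.log N := Real.log_nonneg hN0
  obtain ⟨c, hc⟩ : ∃ c : ℕ → ℂ, ∀ r, c r = SP N (-((r : ℝ) / M)) * (FA A ((r : ℝ) / M) *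
    (FK H ((r : ℝ) / M) / H - FK H1 ((r : ℝ) / M) / H1)) := ⟨_, fun _ => rfl⟩
  have h1 := TF_fourier hNM A Ω u v hu H (fun a ha n hn => by have := hN a ha n hn; omega)
  have h2 := TF_fourier hNM A Ω u v hu H1 hN
  have h3 : (M : ℂ) * (((TF A Ω u H / H - TF A Ω u H1 / H1 : ℝ)) : ℂ) =
      ∑ n ∈ Ω, ∑ r ∈ range M, c r * ee ((v n : ℝ) * ((r : ℝ) / M)) := by
    push_cast
    rw [mul_sub, ← mul_div_assoc, ← mul_div_assoc, h1, h2, sum_div, sum_div, ← sum_sub_distrib]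
    apply sum_congr rfl
    intro n _
    rw [sum_div, sum_div, ← sum_sub_distrib]
    apply sum_congr rfl
    intro r _
    rw [hc]
    ring
  have h4 : (M : ℝ) * |TF A Ω u H / H - TF A Ω u H1 / H1| ≤
      ∑ n ∈ Ω, ‖∑ r ∈ range M, c r * ee ((v n : ℝ) * ((r : ℝ) / M))‖ := by
    have h5 : (M : ℝ) * |TF A Ω u H / H - TF A Ω u H1 / H1| =
        ‖(M : ℂ) * (((TF A Ω u H / H - TF A Ω u H1 / H1 : ℝ)) : ℂ)‖ := by
      rw [norm_mul, Complex.norm_natCast, Complex.norm_real, Real.norm_eq_abs]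
    rw [h5, h3]
    exact norm_sum_le _ _
  have h5 : (∑ n ∈ Ω, ‖∑ r ∈ range M, c r * ee ((v n : ℝ) * ((r : ℝ) / M))‖) ^ 2 ≤
      Ω.card * ∑ n ∈ S, ‖∑ r ∈ range M, c r * ee ((v n : ℝ) * ((r : ℝ) / M))‖ ^ 2 := by
    refine (sq_sum_le_card_mul_sum_sq).trans ?_
    apply mul_le_mul_of_nonneg_left _ (Nat.cast_nonneg _)
    exact sum_le_sum_of_subset_of_nonneg hΩ fun _ _ _ => by positivity
  have h6 := var_le hM S v c δ K hδ hK
  have hA2 : ∑ r ∈ range M, ‖FA A ((r : ℝ) / M)‖ ^ 2 = M * (A.card : ℝ) := parseval hM A hAM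
  have h7 : ∑ r ∈ range M, ‖c r‖ ^ 2 ≤ W ^ 2 * (M * (A.card : ℝ)) := by
    rw [← hA2, mul_sum]
    apply sum_le_sum
    intro r hrm
    have h8 := hr r hrm
    rw [hc, norm_mul, norm_mul]
    have h9 : (‖SP N (-((r : ℝ) / M))‖ * (‖FA A ((r : ℝ) / M)‖ * ‖FK H ((r : ℝ) / M) / H - FK H1 ((r : ℝ) / M) / H1‖)) ^ 2 =
        (‖SP N (-((r : ℝ) / M))‖ * ‖FK H ((r : ℝ) / M) / H - FK H1 ((r : ℝ) / M) / H1‖) ^ 2 * ‖FA A ((r : ℝ) / M)‖ ^ 2 := by ring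
    rw [h9]
    apply mul_le_mul_of_nonneg_right _ (by positivity)
    exact pow_le_pow_left₀ (by positivity) h8 2
  have h8 : (∑ r ∈ range M, ‖c r‖) ^ 2 ≤ 4 * (M * (2 * N * Real.log N)) * (M * A.card) := by
    have h9 : ∑ r ∈ range M, ‖c r‖ ≤ 2 * ∑ r ∈ range M, ‖SP N (-((r : ℝ) / M))‖ * ‖FA A ((r : ℝ) / M)‖ := by
      rw [mul_sum]
      apply sum_le_sum
      intro r _
      rw [hc, norm_mul, norm_mul]
      have h10 : ‖FK H ((r : ℝ) / M) / H - FK H1 ((r : ℝ) / M) / H1‖ ≤ 2 := by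
        refine (norm_sub_le _ _).trans ?_
        have := FK_le H hH ((r : ℝ) / M)
        have := FK_le H1 (by omega) ((r : ℝ) / M)
        linarith
      have h11 : 0 ≤ ‖SP N (-((r : ℝ) / M))‖ * ‖FA A ((r : ℝ) / M)‖ := by positivity
      nlinarith
    have h10 : (∑ r ∈ range M, ‖SP N (-((r : ℝ) / M))‖ * ‖FA A ((r : ℝ) / M)‖) ^ 2 ≤
        (M * (2 * N * Real.log N)) * (M * A.card) := by
      refine (sum_mul_sq_le_sq_mul_sq _ _ _).trans ?_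
      rw [hA2]
      exact mul_le_mul_of_nonneg_right (SP_sq hN1 hNM) (by positivity)
    have h11 : 0 ≤ ∑ r ∈ range M, ‖c r‖ := sum_nonneg fun _ _ => norm_nonneg _
    calc (∑ r ∈ range M, ‖c r‖) ^ 2 ≤ (2 * ∑ r ∈ range M, ‖SP N (-((r : ℝ) / M))‖ * ‖FA A ((r : ℝ) / M)‖) ^ 2 :=
          pow_le_pow_left₀ h11 h9 2
      _ = 4 * (∑ r ∈ range M, ‖SP N (-((r : ℝ) / M))‖ * ‖FA A ((r : ℝ) / M)‖) ^ 2 := by ring
      _ ≤ 4 * ((M * (2 * N * Real.log N)) * (M * A.card)) := mul_le_mul_of_nonneg_left h10 (by norm_num)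
      _ = _ := by ring
  have h9 : (M : ℝ) ^ 2 * (TF A Ω u H / H - TF A Ω u H1 / H1) ^ 2 ≤
      M ^ 2 * (Ω.card * (S.card * (A.card * (K * W ^ 2 / M + 8 * δ * N * Real.log N)))) := by
    have h10 : (0 : ℝ) ≤ (M : ℝ) * |TF A Ω u H / H - TF A Ω u H1 / H1| := by positivity
    calc (M : ℝ) ^ 2 * (TF A Ω u H / H - TF A Ω u H1 / H1) ^ 2 = ((M : ℝ) * |TF A Ω u H / H - TF A Ω u H1 / H1|) ^ 2 := by
          rw [mul_pow, sq_abs]
      _ ≤ (∑ n ∈ Ω, ‖∑ r ∈ range M, c r * ee ((v n : ℝ) * ((r : ℝ) / M))‖) ^ 2 := pow_le_pow_left₀ h10 h4 2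
      _ ≤ Ω.card * ∑ n ∈ S, ‖∑ r ∈ range M, c r * ee ((v n : ℝ) * ((r : ℝ) / M))‖ ^ 2 := h5
      _ ≤ Ω.card * (S.card * (K * ∑ r ∈ range M, ‖c r‖ ^ 2 + δ * (∑ r ∈ range M, ‖c r‖) ^ 2)) :=
          mul_le_mul_of_nonneg_left h6 (Nat.cast_nonneg _)
      _ ≤ Ω.card * (S.card * (K * (W ^ 2 * (M * (A.card : ℝ))) + δ * (4 * (M * (2 * N * Real.log N)) * (M * A.card)))) := by
          gcongr
      _ = _ := by field_simp; ring
  exact le_of_mul_le_mul_left h9 (by positivity)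

/-- the pointwise bound at all the frequencies -/
lemma all_points {C : ℝ} (hC : VC C) {N : ℕ} (hN : 1 ≤ N) (H H1 : ℕ) (hH : 1 ≤ H) (hHH : H ≤ H1) (Q : ℝ) (hQ : 0 < Q) :
    ∀ r ∈ range (N + 1), ‖SP N (-((r : ℝ) / ((N + 1 : ℕ) : ℝ)))‖ *
      ‖FK H ((r : ℝ) / ((N + 1 : ℕ) : ℝ)) / H - FK H1 ((r : ℝ) / ((N + 1 : ℕ) : ℝ)) / H1‖ ≤ (6 * C + 26) * ERR N H H1 Q := by
  have hlogN : 0 ≤ Real.log N := Real.log_nonneg (by exact_mod_cast hN)
  have hE : 0 ≤ ERR N H H1 Q := by unfold ERR; positivity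
  have hE2 : 0 ≤ (6 * C + 26) * ERR N H H1 Q := by have := hC.1; positivity
  intro r hr
  rw [mem_range] at hr
  have hM0 : ((N + 1 : ℕ) : ℝ) ≠ 0 := by positivity
  rcases Nat.eq_zero_or_pos r with h0 | h0
  · subst h0
    have hH0 : (H : ℂ) ≠ 0 := by
      have : 0 < H := hH
      exact_mod_cast this.ne'
    have hH10 : (H1 : ℂ) ≠ 0 := by
      have : 0 < H1 := by omega
      exact_mod_cast this.ne'
    have : FK H (((0 : ℕ) : ℝ) / (N + 1 : ℕ)) / H - FK H1 (((0 : ℕ) : ℝ) / (N + 1 : ℕ)) / H1 = 0 := by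
      unfold FK
      simp [ee_zero, hH0, hH10]
    rw [this, norm_zero, mul_zero]
    exact hE2
  · rcases le_or_gt (2 * r) (N + 1) with h | h
    · exact one_point hC hN h0 h H H1 hH hHH Q hQ _ (Or.inl rfl)
    · have hm1 : 1 ≤ N + 1 - r := by omega
      have hm2 : 2 * (N + 1 - r) ≤ N + 1 := by omega
      have key := one_point hC hN hm1 hm2 H H1 hH hHH Q hQ _ (Or.inr rfl)
      have e0 : -(((N + 1 - r : ℕ) : ℝ) / (N + 1 : ℕ)) = (((r : ℝ) - (N + 1 : ℕ)) / (N + 1 : ℕ)) := by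
        rw [Nat.cast_sub (by omega)]; ring
      rw [e0] at key
      have e1 : ∀ K : ℕ, FK K (((r : ℝ) - (N + 1 : ℕ)) / (N + 1 : ℕ)) = FK K ((r : ℝ) / (N + 1 : ℕ)) := by
        intro K
        unfold FK
        apply sum_congr rfl
        intro i _
        have := ee_red (M := N + 1) (by omega) r (i : ℤ)
        push_cast at this ⊢
        exact this
      have e2 : SP N (-(((r : ℝ) - (N + 1 : ℕ)) / (N + 1 : ℕ))) = SP N (-((r : ℝ) / (N + 1 : ℕ))) := by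
        unfold SP
        apply sum_congr rfl
        intro i _
        have := ee_red (M := N + 1) (by omega) r (-(i : ℤ))
        push_cast at this ⊢
        rw [mul_neg, mul_neg, ← neg_mul, ← neg_mul, this]
      rw [e1, e1, e2] at key
      exact key

end Pool.Agent.J4.H93.SF
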