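import Pool.Agent.J4.H93.SF.SF2
import Pool.Agent.W301.SS.Trans

set_option autoImplicit false

/-! Primes in the intervals behind the sums `a + v n`: the asymptotic formula for intervals longer than a power of
the logarithm. -/

namespace Pool.Agent.J4.H93.SF
open Finset Filter
open Pool.Agent.H807R2.Dav
open Pool.Agent.W301.SS

lemma ERR_le (B : ℕ) : ∀ᶠ N : ℕ in atTop, ∀ y H1 : ℕ, Real.log N ^ (2 * B + 18) ≤ y →
    (H1 : ℝ) ≤ N / Real.log N ^ (3 * B + 19) →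
    ERR (4 * N) y H1 (N / Real.log N ^ (2 * B + 18)) ≤ 2000 * (N / Real.log N ^ (B + 1)) := by
  filter_upwards [ev_L 16, ev_log (B + 8) 2 (1 / 5) (by norm_num), eventually_ge_atTop 16] with
    N hℓ16 h3 hN16 y H1 hy1 hH1le
  have hNr : (16 : ℝ) ≤ N := by exact_mod_cast hN16
  have hN0 : (0 : ℝ) < N := by linarith
  set ℓ := Real.log N with hℓ
  have hℓ0 : 0 < ℓ := by linarith
  have hL : 1 + Real.log ((4 * N : ℕ) : ℝ) ≤ 2 * ℓ := by
    push_cast
    rw [Real.log_mul (by norm_num) (by linarith)]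
    have := log4
    linarith
  have hL0 : 0 ≤ 1 + Real.log ((4 * N : ℕ) : ℝ) := by
    have : 0 ≤ Real.log ((4 * N : ℕ) : ℝ) := Real.log_natCast_nonneg _
    linarith
  have hL7 : (1 + Real.log ((4 * N : ℕ) : ℝ)) ^ 7 ≤ 128 * ℓ ^ 7 := by
    calc _ ≤ (2 * ℓ) ^ 7 := pow_le_pow_left₀ hL0 hL 7
      _ = _ := by ring
  have c1 : ((4 * N : ℕ) : ℝ) / √(y : ℝ) ≤ 4 * (N / ℓ ^ (B + 9)) := by
    have : ℓ ^ (B + 9) ≤ √(y : ℝ) := by
      apply Real.le_sqrt_of_sq_le
      rw [← pow_mul]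
      have e : (B + 9) * 2 = 2 * B + 18 := by omega
      rw [e]; exact hy1
    push_cast
    rw [mul_div_assoc]
    gcongr
  have c2 : ((4 * N : ℕ) : ℝ) ^ (4 / 5 : ℝ) ≤ 4 * (N / ℓ ^ (B + 8)) := by
    push_cast
    rw [Real.mul_rpow (by norm_num) hN0.le]
    have d1 : (4 : ℝ) ^ (4 / 5 : ℝ) ≤ 4 := by
      calc (4 : ℝ) ^ (4 / 5 : ℝ) ≤ (4 : ℝ) ^ (1 : ℝ) :=
            Real.rpow_le_rpow_of_exponent_le (by norm_num) (by norm_num)
        _ = 4 := Real.rpow_one _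
    have d2 : (N : ℝ) ^ (4 / 5 : ℝ) ≤ N / ℓ ^ (B + 8) := by
      rw [le_div_iff₀ (by positivity)]
      calc (N : ℝ) ^ (4 / 5 : ℝ) * ℓ ^ (B + 8) ≤ (N : ℝ) ^ (4 / 5 : ℝ) * (N : ℝ) ^ (1 / 5 : ℝ) := by
            apply mul_le_mul_of_nonneg_left _ (by positivity)
            have : 0 ≤ ℓ ^ (B + 8) := by positivity
            linarith
        _ = N := by rw [← Real.rpow_add hN0]; norm_num
    gcongr
  have c3 : √(((4 * N : ℕ) : ℝ) * (N / ℓ ^ (2 * B + 18))) ≤ 2 * (N / ℓ ^ (B + 9)) := by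
    apply Real.sqrt_le_iff.2
    refine ⟨by positivity, le_of_eq ?_⟩
    push_cast
    rw [mul_pow, div_pow, ← pow_mul]
    have e : (B + 9) * 2 = 2 * B + 18 := by omega
    rw [e]
    field_simp
    norm_num
  have c4 : ((4 * N : ℕ) : ℝ) * H1 / (N / ℓ ^ (2 * B + 18)) ≤ 4 * (N / ℓ ^ (B + 1)) := by
    push_cast
    calc 4 * (N : ℝ) * H1 / (N / ℓ ^ (2 * B + 18)) ≤ 4 * (N : ℝ) * (N / ℓ ^ (3 * B + 19)) / (N / ℓ ^ (2 * B + 18)) := by gcongr
      _ = _ := by
          have e : ℓ ^ (3 * B + 19) = ℓ ^ (2 * B + 18) * ℓ ^ (B + 1) := by rw [← pow_add]; congr 1; omega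
          rw [e]; field_simp
  have c5 : (N : ℝ) / ℓ ^ (B + 9) ≤ N / ℓ ^ (B + 8) := by
    apply div_le_div_of_nonneg_left hN0.le (by positivity)
    exact pow_le_pow_right₀ (by linarith) (by omega)
  unfold ERR
  have d0 : ((4 * N : ℕ) : ℝ) / √(y : ℝ) + ((4 * N : ℕ) : ℝ) ^ (4 / 5 : ℝ) +
      √(((4 * N : ℕ) : ℝ) * (N / ℓ ^ (2 * B + 18))) ≤ 10 * (N / ℓ ^ (B + 8)) := by linarith
  have d1 : 0 ≤ ((4 * N : ℕ) : ℝ) / √(y : ℝ) + ((4 * N : ℕ) : ℝ) ^ (4 / 5 : ℝ) +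
      √(((4 * N : ℕ) : ℝ) * (N / ℓ ^ (2 * B + 18))) := by positivity
  have d2 : (1 + Real.log ((4 * N : ℕ) : ℝ)) ^ 7 * (((4 * N : ℕ) : ℝ) / √(y : ℝ) +
      ((4 * N : ℕ) : ℝ) ^ (4 / 5 : ℝ) + √(((4 * N : ℕ) : ℝ) * (N / ℓ ^ (2 * B + 18)))) ≤
      (128 * ℓ ^ 7) * (10 * (N / ℓ ^ (B + 8))) := by gcongr
  have d3 : (128 * ℓ ^ 7) * (10 * (N / ℓ ^ (B + 8))) = 1280 * (N / ℓ ^ (B + 1)) := by
    have e : ℓ ^ (B + 8) = ℓ ^ 7 * ℓ ^ (B + 1) := by rw [← pow_add]; congr 1; omega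
    rw [e]; field_simp; norm_num
  have d4 : 0 ≤ (N : ℝ) / ℓ ^ (B + 1) := by positivity
  linarith

lemma th_pnt (A : Finset ℕ) (N b y : ℕ) (hA : ∀ a ∈ A, a ≤ N) (hb : b ≤ N)
    (hy : y ≤ 2 * N) (E : ℝ) (hE : ∀ m : ℕ, m ≤ 4 * N → |Chebyshev.theta (m : ℝ) - m| ≤ E) :
    |th A b y - (A.card : ℝ) * y| ≤ (A.card : ℝ) * (2 * E) := by
  have h := TT_pnt A {b} N y hA (fun b' hb' => by rw [mem_singleton] at hb'; rw [hb']; exact hb) hy E hE
  rw [← th_eq, card_singleton, Nat.cast_one, mul_one] at h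
  exact h

/-- **Asymptotic formula on average over the pairs `(a, n)`.** -/
theorem thetaFam (C p : ℕ) : ∃ K : ℕ, ∀ C₁ ε : ℝ, 0 < ε → ∀ᶠ N : ℕ in atTop,
    ∀ A : Finset ℕ, (∀ a ∈ A, a ≤ N) → (N : ℝ) ≤ (A.card : ℝ) * Real.log N ^ C →
    ∀ (S : Finset ℕ) (v : ℕ → ℤ), 0 < S.card → Law (4 * N + 1) p C₁ S v →
    ∀ Ω : Finset ℕ, Ω ⊆ S → ∀ u : ℕ → ℕ, (∀ n ∈ Ω, (u n : ℤ) = v n ∧ u n ≤ N) →
    (S.card : ℝ) ≤ (Ω.card : ℝ) * Real.log N ^ C →
    ∀ y : ℕ, Real.log N ^ K ≤ y → y ≤ 2 * N →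
    |TF A Ω u y - (A.card : ℝ) * Ω.card * y| ≤ ε * ((A.card : ℝ) * Ω.card * y) := by
  classical
  obtain ⟨C0, hC0⟩ := vinoP
  have hVC : VC C0 := hC0
  obtain ⟨B, hB⟩ : ∃ B, B = C + p * (2 * C + 2) := ⟨_, rfl⟩
  refine ⟨2 * B + 18, fun C₁ ε hε => ?_⟩
  obtain ⟨c₂, hc₂⟩ : ∃ c₂ : ℝ, c₂ = (6 * C0 + 26) * 2000 := ⟨_, rfl⟩
  have hc₂0 : 0 < c₂ := by have := hC0.1; rw [hc₂]; positivity
  filter_upwards [ev_L (|C₁| * c₂ ^ 2 + 260 / ε ^ 2 + 16 / ε + 16), ev_log (3 * B + 20) 2 1 (by norm_num),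
    ERR_le B, pnt_unif (3 * B + 20), eventually_ge_atTop 16] with
    N h1 h2 h3 h4 hN16 A hA hAN S v hS hlaw Ω hΩ u hu hSΩ y hy1 hy2
  have hNr : (16 : ℝ) ≤ N := by exact_mod_cast hN16
  have hN0 : (0 : ℝ) < N := by linarith
  set ℓ := Real.log N with hℓ
  have hp1 : 0 ≤ |C₁| * c₂ ^ 2 := by positivity
  have hp2 : 0 < 260 / ε ^ 2 := by positivity
  have hp3 : 0 < 16 / ε := by positivity
  have hℓ16 : 16 ≤ ℓ := by linarith
  have hℓ0 : 0 < ℓ := by linarith
  rw [Real.rpow_one] at h2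
  have hA0 : (0 : ℝ) < A.card := by
    by_contra hcon
    have : (A.card : ℝ) = 0 := le_antisymm (not_lt.1 hcon) (Nat.cast_nonneg _)
    rw [this, zero_mul] at hAN
    linarith
  have hS0 : (0 : ℝ) < S.card := by exact_mod_cast hS
  have hΩ0 : (0 : ℝ) < Ω.card := by
    by_contra hcon
    have : (Ω.card : ℝ) = 0 := le_antisymm (not_lt.1 hcon) (Nat.cast_nonneg _)
    rw [this, zero_mul] at hSΩ
    linarith
  set P : ℝ := (A.card : ℝ) * Ω.card with hP
  have hP0 : 0 < P := by positivity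
  -- the long length
  set H1 : ℕ := ⌊(N : ℝ) / ℓ ^ (3 * B + 19)⌋₊ with hH1
  have hH1le : (H1 : ℝ) ≤ N / ℓ ^ (3 * B + 19) := Nat.floor_le (by positivity)
  have hbig : 2 ≤ (N : ℝ) / ℓ ^ (3 * B + 19) := by
    rw [le_div_iff₀ (by positivity)]
    calc 2 * ℓ ^ (3 * B + 19) ≤ 2 * ℓ ^ (3 * B + 20) := by
          apply mul_le_mul_of_nonneg_left _ (by norm_num)
          exact pow_le_pow_right₀ (by linarith) (by omega)
      _ ≤ N := h2
  have hH1ge : (N : ℝ) / ℓ ^ (3 * B + 19) ≤ 2 * H1 := by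
    have := Nat.lt_floor_add_one ((N : ℝ) / ℓ ^ (3 * B + 19))
    rw [← hH1] at this
    linarith
  have hH1pos : 1 ≤ H1 := Nat.le_floor (by push_cast; linarith)
  have hH1N : H1 ≤ N := by
    have : (H1 : ℝ) ≤ N := hH1le.trans (div_le_self hN0.le (one_le_pow₀ (by linarith)))
    exact_mod_cast this
  have hH10 : (0 : ℝ) < H1 := by exact_mod_cast hH1pos
  -- prime number theorem for lengths at least `H1`
  have hlong : ∀ z : ℕ, H1 ≤ z → z ≤ 2 * N → |TF A Ω u z - P * z| ≤ (ε / 4) * (P * z) := by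
    intro z hz1 hz2
    have a0 : TF A Ω u z - P * z = ∑ n ∈ Ω, (th A (u n) z - (A.card : ℝ) * z) := by
      unfold TF
      rw [sum_sub_distrib, sum_const, nsmul_eq_mul, hP]
      ring
    have a1 : |TF A Ω u z - P * z| ≤ P * (2 * (N / ℓ ^ (3 * B + 20))) := by
      rw [a0]
      refine (abs_sum_le_sum_abs _ _).trans ?_
      refine (sum_le_sum fun n hn => th_pnt A N (u n) z hA (hu n hn).2 hz2 (N / ℓ ^ (3 * B + 20)) h4).trans (le_of_eq ?_)
      rw [sum_const, nsmul_eq_mul, hP]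
      ring
    refine a1.trans ?_
    have hz : (H1 : ℝ) ≤ z := by exact_mod_cast hz1
    have a2 : 2 * (N / ℓ ^ (3 * B + 20)) ≤ (4 / ℓ) * z := by
      calc 2 * (N / ℓ ^ (3 * B + 20)) = (2 / ℓ) * (N / ℓ ^ (3 * B + 19)) := by rw [pow_succ]; field_simp
        _ ≤ (2 / ℓ) * (2 * H1) := by gcongr
        _ ≤ (2 / ℓ) * (2 * z) := by gcongr
        _ = _ := by ring
    have a3 : 4 / ℓ ≤ ε / 4 := by
      rw [div_le_div_iff₀ hℓ0 (by norm_num)]
      have : 16 / ε ≤ ℓ := by linarith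
      rw [div_le_iff₀ hε] at this
      linarith
    calc P * (2 * (N / ℓ ^ (3 * B + 20))) ≤ P * ((4 / ℓ) * z) := by gcongr
      _ ≤ P * ((ε / 4) * z) := by gcongr
      _ = _ := by ring
  rcases le_or_gt H1 y with hcase | hcase
  · refine (hlong y hcase hy2).trans ?_
    apply mul_le_mul_of_nonneg_right _ (by positivity)
    linarith
  · -- short lengths
    have hy0 : (1 : ℝ) ≤ y := le_trans (one_le_pow₀ (by linarith)) hy1
    have hy1n : 1 ≤ y := by exact_mod_cast hy0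
    have hyp : (0 : ℝ) < y := by linarith
    have b2 := hlong H1 le_rfl (by omega)
    obtain ⟨δ, hδ⟩ : ∃ δ : ℝ, δ = 1 / ℓ ^ (2 * C + 2) := ⟨_, rfl⟩
    have hδ0 : 0 < δ := by rw [hδ]; positivity
    have hfew := hlaw.few hS δ hδ0
    have hW := all_points hVC (N := 4 * N) (by omega) y H1 hy1n hcase.le (N / ℓ ^ (2 * B + 18)) (by positivity)
    have hdiff := TF_diff (N := 4 * N) (M := 4 * N + 1) (by omega) (by omega) A S Ω hΩ u v (fun n hn => (hu n hn).1)
      (fun a ha => by have := hA a ha; omega) y H1 hy1n hcase.le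
      (fun a ha n hn => by have := hA a ha; have := (hu n hn).2; omega) _ hW δ _ hδ0.le hfew
    have hE := h3 y H1 hy1 hH1le
    have hE0 : 0 ≤ ERR (4 * N) y H1 (N / ℓ ^ (2 * B + 18)) := by
      unfold ERR
      have : 0 ≤ Real.log ((4 * N : ℕ) : ℝ) := Real.log_natCast_nonneg _
      positivity
    have hW1 : (6 * C0 + 26) * ERR (4 * N) y H1 (N / ℓ ^ (2 * B + 18)) ≤ c₂ * (N / ℓ ^ (B + 1)) := by
      rw [hc₂, mul_assoc]
      exact mul_le_mul_of_nonneg_left hE (by have := hC0.1; positivity)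
    have hW0 : 0 ≤ (6 * C0 + 26) * ERR (4 * N) y H1 (N / ℓ ^ (2 * B + 18)) := by have := hC0.1; positivity
    have hC₁0 : 0 ≤ C₁ := hlaw.nonneg hS
    have d1 : C₁ / δ ^ (2 * p) * ((6 * C0 + 26) * ERR (4 * N) y H1 (N / ℓ ^ (2 * B + 18))) ^ 2 / ((4 * N + 1 : ℕ) : ℝ) ≤
        N / ℓ ^ (2 * C + 1) := by
      calc C₁ / δ ^ (2 * p) * ((6 * C0 + 26) * ERR (4 * N) y H1 (N / ℓ ^ (2 * B + 18))) ^ 2 / ((4 * N + 1 : ℕ) : ℝ) ≤
          C₁ / δ ^ (2 * p) * (c₂ * (N / ℓ ^ (B + 1))) ^ 2 / N := by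
            gcongr
            push_cast
            linarith
        _ = (C₁ * c₂ ^ 2 / ℓ) * (N / ℓ ^ (2 * C + 1)) := by
            rw [hδ, div_pow, one_pow, div_div_eq_mul_div, div_one, ← pow_mul, mul_pow, div_pow, ← pow_mul, hB]
            have e : ℓ ^ ((C + p * (2 * C + 2) + 1) * 2) = ℓ ^ ((2 * C + 2) * (2 * p)) * (ℓ * ℓ ^ (2 * C + 1)) := by
              rw [← pow_succ', ← pow_add]
              congr 1
              ring
            rw [e]
            field_simp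
        _ ≤ 1 * (N / ℓ ^ (2 * C + 1)) := by
            apply mul_le_mul_of_nonneg_right _ (by positivity)
            rw [div_le_one hℓ0]
            have : |C₁| = C₁ := abs_of_nonneg hC₁0
            rw [this] at h1 hp1
            linarith
        _ = _ := one_mul _
    have d2 : 8 * δ * ((4 * N : ℕ) : ℝ) * Real.log ((4 * N : ℕ) : ℝ) ≤ 64 * (N / ℓ ^ (2 * C + 1)) := by
      have e1 : Real.log ((4 * N : ℕ) : ℝ) ≤ 2 * ℓ := by
        push_cast
        rw [Real.log_mul (by norm_num) (by linarith)]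
        have := log4
        linarith
      calc 8 * δ * ((4 * N : ℕ) : ℝ) * Real.log ((4 * N : ℕ) : ℝ) ≤ 8 * δ * ((4 * N : ℕ) : ℝ) * (2 * ℓ) := by gcongr
        _ = 64 * (N / ℓ ^ (2 * C + 1)) := by
            rw [hδ, show 2 * C + 2 = (2 * C + 1) + 1 by ring, pow_succ]
            push_cast
            field_simp
            norm_num
    have d3 : (TF A Ω u y / y - TF A Ω u H1 / H1) ^ 2 ≤ (ε / 2 * P) ^ 2 := by
      refine hdiff.trans ?_
      calc (Ω.card : ℝ) * (S.card * (A.card * (C₁ / δ ^ (2 * p) *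
            ((6 * C0 + 26) * ERR (4 * N) y H1 (N / ℓ ^ (2 * B + 18))) ^ 2 / ((4 * N + 1 : ℕ) : ℝ) +
            8 * δ * ((4 * N : ℕ) : ℝ) * Real.log ((4 * N : ℕ) : ℝ)))) ≤
          Ω.card * ((Ω.card * ℓ ^ C) * (A.card * (65 * (((A.card : ℝ) * ℓ ^ C) / ℓ ^ (2 * C + 1))))) := by
            have e1 : C₁ / δ ^ (2 * p) *
              ((6 * C0 + 26) * ERR (4 * N) y H1 (N / ℓ ^ (2 * B + 18))) ^ 2 / ((4 * N + 1 : ℕ) : ℝ) +
              8 * δ * ((4 * N : ℕ) : ℝ) * Real.log ((4 * N : ℕ) : ℝ) ≤ 65 * (((A.card : ℝ) * ℓ ^ C) / ℓ ^ (2 * C + 1)) := by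
                have e2 : (N : ℝ) / ℓ ^ (2 * C + 1) ≤ ((A.card : ℝ) * ℓ ^ C) / ℓ ^ (2 * C + 1) := by gcongr
                linarith
            gcongr
        _ = (65 / ℓ) * P ^ 2 := by
            rw [hP, show 2 * C + 1 = C + C + 1 by ring, pow_succ, pow_add]
            field_simp
        _ ≤ (ε / 2) ^ 2 * P ^ 2 := by
            apply mul_le_mul_of_nonneg_right _ (by positivity)
            have e1 : 260 / ε ^ 2 ≤ ℓ := by linarith
            rw [div_le_iff₀ (by positivity)] at e1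
            rw [div_le_iff₀ hℓ0]
            nlinarith
        _ = _ := by ring
    have b3 : |TF A Ω u y / y - TF A Ω u H1 / H1| ≤ (ε / 2) * P := by
      exact abs_le_of_sq_le_sq d3 (by positivity)
    have b4 : |TF A Ω u H1 / H1 - P| ≤ (ε / 4) * P := by
      have e : TF A Ω u H1 / H1 - P = (TF A Ω u H1 - P * H1) / H1 := by field_simp
      rw [e, abs_div, abs_of_pos hH10, div_le_iff₀ hH10]
      linarith
    have b5 : |TF A Ω u y / y - P| ≤ ε * P := by
      have := abs_sub_le (TF A Ω u y / y) (TF A Ω u H1 / H1) P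
      have h0 : 0 ≤ ε * P := by positivity
      linarith
    have e : TF A Ω u y - P * y = (TF A Ω u y / y - P) * y := by field_simp
    rw [e, abs_mul, abs_of_pos hyp]
    calc |TF A Ω u y / y - P| * y ≤ (ε * P) * y := by gcongr
      _ = _ := by ring

lemma th_mono (A : Finset ℕ) (b : ℕ) {y z : ℕ} (h : y ≤ z) : th A b y ≤ th A b z := by
  unfold th
  apply sum_le_sum
  intro a _
  apply sum_le_sum_of_subset_of_nonneg
  · exact Ioc_subset_Ioc_right h
  · intro _ _ _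
    exact om_nonneg _

lemma th_nonneg (A : Finset ℕ) (b y : ℕ) : 0 ≤ th A b y :=
  sum_nonneg fun _ _ => sum_nonneg fun _ _ => om_nonneg _

open Classical in
/-- the exceptional indices for one length -/
noncomputable def BadF (A S : Finset ℕ) (v : ℕ → ℤ) (N g : ℕ) (η : ℝ) : Finset ℕ :=
  S.filter (fun n => 0 ≤ v n ∧ v n ≤ N ∧ η * ((A.card : ℝ) * g) < |th A (v n).toNat g - (A.card : ℝ) * g|)

lemma badF_card {A S : Finset ℕ} {v : ℕ → ℤ} {N g k : ℕ} {η : ℝ} (hS : 0 < S.card)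
    (hpair : ∀ Ω : Finset ℕ, Ω ⊆ S → (∀ n ∈ Ω, 0 ≤ v n ∧ v n ≤ N) →
      (S.card : ℝ) ≤ (Ω.card : ℝ) * Real.log N ^ k →
      |TF A Ω (fun n => (v n).toNat) g - (A.card : ℝ) * Ω.card * g| ≤ η * ((A.card : ℝ) * Ω.card * g)) :
    ((BadF A S v N g η).card : ℝ) * Real.log N ^ k ≤ 2 * S.card := by
  classical
  set ℓ := Real.log N with hℓ
  have hℓ0 : 0 ≤ ℓ := Real.log_natCast_nonneg N
  have hS0 : (0 : ℝ) < S.card := by exact_mod_cast hS
  set Bp : Finset ℕ := S.filter (fun n => 0 ≤ v n ∧ v n ≤ N ∧ η * ((A.card : ℝ) * g) < th A (v n).toNat g - (A.card : ℝ) * g)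
    with hBp
  set Bm : Finset ℕ := S.filter (fun n => 0 ≤ v n ∧ v n ≤ N ∧ η * ((A.card : ℝ) * g) < (A.card : ℝ) * g - th A (v n).toNat g)
    with hBm
  have hsub : BadF A S v N g η ⊆ Bp ∪ Bm := by
    intro n hn
    unfold BadF at hn
    rw [mem_filter] at hn
    rw [mem_union, hBp, hBm, mem_filter, mem_filter]
    rcases lt_abs.1 hn.2.2.2 with h | h
    · exact Or.inl ⟨hn.1, hn.2.1, hn.2.2.1, h⟩
    · exact Or.inr ⟨hn.1, hn.2.1, hn.2.2.1, by linarith⟩
  have hcard : ((BadF A S v N g η).card : ℝ) ≤ Bp.card + Bm.card := by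
    exact_mod_cast (card_le_card hsub).trans (card_union_le _ _)
  have hp : (Bp.card : ℝ) * ℓ ^ k ≤ S.card := by
    by_contra hcon
    rw [not_le] at hcon
    have h2 := hpair Bp (filter_subset _ _) (fun n hn => by rw [hBp, mem_filter] at hn; exact ⟨hn.2.1, hn.2.2.1⟩) hcon.le
    have hne : Bp.Nonempty := by
      by_contra hne
      rw [not_nonempty_iff_eq_empty] at hne
      rw [hne] at hcon
      simp at hcon
      linarith
    have h3 : ∑ b ∈ Bp, η * ((A.card : ℝ) * g) < ∑ n ∈ Bp, (th A (v n).toNat g - (A.card : ℝ) * g) := by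
      apply sum_lt_sum_of_nonempty hne
      intro b hb
      rw [hBp, mem_filter] at hb
      exact hb.2.2.2
    rw [sum_const, nsmul_eq_mul, sum_sub_distrib, sum_const, nsmul_eq_mul] at h3
    have h4 := (abs_le.1 h2).2
    unfold TF at h4
    nlinarith
  have hm : (Bm.card : ℝ) * ℓ ^ k ≤ S.card := by
    by_contra hcon
    rw [not_le] at hcon
    have h2 := hpair Bm (filter_subset _ _) (fun n hn => by rw [hBm, mem_filter] at hn; exact ⟨hn.2.1, hn.2.2.1⟩) hcon.le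
    have hne : Bm.Nonempty := by
      by_contra hne
      rw [not_nonempty_iff_eq_empty] at hne
      rw [hne] at hcon
      simp at hcon
      linarith
    have h3 : ∑ b ∈ Bm, η * ((A.card : ℝ) * g) < ∑ n ∈ Bm, ((A.card : ℝ) * g - th A (v n).toNat g) := by
      apply sum_lt_sum_of_nonempty hne
      intro b hb
      rw [hBm, mem_filter] at hb
      exact hb.2.2.2
    rw [sum_const, nsmul_eq_mul, sum_sub_distrib, sum_const, nsmul_eq_mul] at h3
    have h4 := (abs_le.1 h2).1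
    unfold TF at h4
    nlinarith
  have hk : 0 ≤ ℓ ^ k := by positivity
  calc ((BadF A S v N g η).card : ℝ) * ℓ ^ k ≤ (Bp.card + Bm.card) * ℓ ^ k := mul_le_mul_of_nonneg_right hcard hk
    _ = Bp.card * ℓ ^ k + Bm.card * ℓ ^ k := by ring
    _ ≤ _ := by linarith

open Classical in
/-- the exceptional indices for all the lengths between `(log N) ^ K` and `N` -/
noncomputable def ExF (A S : Finset ℕ) (v : ℕ → ℤ) (N K : ℕ) (ε : ℝ) : Finset ℕ :=
  S.filter (fun n => 0 ≤ v n ∧ v n ≤ N ∧ ∃ y : ℕ, Real.log N ^ K ≤ y ∧ y ≤ N ∧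
    ε * ((A.card : ℝ) * y) < |th A (v n).toNat y - (A.card : ℝ) * y|)

/-- **Asymptotic formula for almost all elements of the family.** -/
theorem transFam (C p : ℕ) : ∃ K : ℕ, ∀ C₁ ε : ℝ, 0 < ε → ε ≤ 1 → ∀ᶠ N : ℕ in atTop,
    ∀ A : Finset ℕ, (∀ a ∈ A, a ≤ N) → (N : ℝ) ≤ (A.card : ℝ) * Real.log N ^ C →
    ∀ (S : Finset ℕ) (v : ℕ → ℤ), Law (4 * N + 1) p C₁ S v →
    ((ExF A S v N K ε).card : ℝ) * Real.log N ^ C ≤ S.card := by
  classical
  obtain ⟨K, hK⟩ := thetaFam (C + 3) p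
  refine ⟨K + 1, fun C₁ ε hε hε1 => ?_⟩
  set η : ℝ := ε / 8 with hη
  have hη0 : 0 < η := by positivity
  have hη1 : η ≤ 1 / 8 := by rw [hη]; linarith
  have hlr : 0 < Real.log (1 + η) := Real.log_pos (by linarith)
  filter_upwards [hK C₁ η hη0, ev_L (1 / η + 2 / Real.log (1 + η) + 8), eventually_ge_atTop 16] with
    N hfam hL hN16 A hA hAN S v hlaw
  have hNr : (16 : ℝ) ≤ N := by exact_mod_cast hN16
  have hN0 : (0 : ℝ) < N := by linarith
  set ℓ := Real.log N with hℓ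
  have hd1 : 0 < 1 / η := by positivity
  have hd2 : 0 < 2 / Real.log (1 + η) := by positivity
  have hℓ8 : 8 ≤ ℓ := by linarith
  have hℓ0 : 0 < ℓ := by linarith
  rcases Nat.eq_zero_or_pos S.card with hS | hS
  · have : (ExF A S v N (K + 1) ε).card = 0 := by
      have := card_le_card (filter_subset (fun n => 0 ≤ v n ∧ v n ≤ N ∧ ∃ y : ℕ, Real.log N ^ (K + 1) ≤ y ∧ y ≤ N ∧
        ε * ((A.card : ℝ) * y) < |th A (v n).toNat y - (A.card : ℝ) * y|) S)
      unfold ExF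
      omega
    rw [this, hS]
    simp
  have hS0 : (0 : ℝ) < S.card := by exact_mod_cast hS
  set c : ℝ := (A.card : ℝ) with hc
  have hc0 : 0 < c := by
    by_contra hcon
    have : c = 0 := le_antisymm (not_lt.1 hcon) (Nat.cast_nonneg _)
    rw [this, zero_mul] at hAN
    linarith
  have hAN' : (N : ℝ) ≤ c * ℓ ^ (C + 3) := hAN.trans (by
    apply mul_le_mul_of_nonneg_left _ hc0.le
    exact pow_le_pow_right₀ (by linarith) (by omega))
  set J : ℕ := ⌊ℓ / Real.log (1 + η)⌋₊ + 2 with hJ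
  set BB : ℕ → Finset ℕ := fun j => if ℓ ^ K ≤ (gr η j : ℝ) ∧ gr η j ≤ 2 * N then
    BadF A S v N (gr η j) η else ∅ with hBB
  have hBBc : ∀ j, ((BB j).card : ℝ) * ℓ ^ (C + 3) ≤ 2 * S.card := by
    intro j
    simp only [hBB]
    split_ifs with h
    · refine badF_card hS (fun Ω hΩ hΩ2 hSΩ => ?_)
      refine hfam A hA hAN' S v hS hlaw Ω hΩ (fun n => (v n).toNat) (fun n hn => ?_) hSΩ (gr η j) h.1 h.2
      have := hΩ2 n hn
      constructor
      · show ((v n).toNat : ℤ) = v n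
        omega
      · show (v n).toNat ≤ N
        omega
    · simp
  have hsub : ExF A S v N (K + 1) ε ⊆ (range J).biUnion BB := by
    intro n hn
    unfold ExF at hn
    rw [mem_filter] at hn
    obtain ⟨hnS, hv0, hvN, y, hy1, hy2, hy3⟩ := hn
    rw [← hℓ] at hy1
    have hyℓ : ℓ ≤ y := by
      refine le_trans ?_ hy1
      calc ℓ = ℓ ^ 1 := (pow_one _).symm
        _ ≤ ℓ ^ (K + 1) := pow_le_pow_right₀ (by linarith) (by omega)
    have hy0 : (1 : ℝ) ≤ y := by linarith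
    obtain ⟨j, g1, g2, g3, g4, g5⟩ := gr_mem hη0 (by linarith) y (by exact_mod_cast hy0)
      (by linarith)
    have hyK : ℓ ^ K ≤ (gr η j : ℝ) := by
      refine le_trans ?_ g5
      have h1 : ℓ ^ K * ℓ ≤ y := by rw [← pow_succ]; exact hy1
      have h2 : 0 ≤ ℓ ^ K := by positivity
      have h3 : ℓ ^ K * 2 ≤ y := by nlinarith
      have h4 : (1 / 2) * (y : ℝ) ≤ (1 - 2 * η) * y := by nlinarith
      linarith
    have hjJ : j + 1 < J := by
      have h1 : (j : ℝ) ≤ ℓ / Real.log (1 + η) := by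
        rw [le_div_iff₀ hlr, ← Real.log_pow]
        apply Real.log_le_log (by positivity)
        refine g1.trans ?_
        exact_mod_cast hy2
      have h2 : j ≤ ⌊ℓ / Real.log (1 + η)⌋₊ := Nat.le_floor h1
      omega
    have hg2N : gr η (j + 1) ≤ 2 * N := by
      have h1 : (gr η (j + 1) : ℝ) ≤ 2 * N := by
        refine g4.trans ?_
        have : (y : ℝ) ≤ N := by exact_mod_cast hy2
        nlinarith
      exact_mod_cast h1
    have hyN : (y : ℝ) ≤ N := by exact_mod_cast hy2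
    rw [mem_biUnion]
    by_contra hcon
    push Not at hcon
    have n1 := hcon j (mem_range.2 (by omega))
    have n2 := hcon (j + 1) (mem_range.2 hjJ)
    have hgg : (gr η j : ℝ) ≤ gr η (j + 1) := by exact_mod_cast g2.trans g3
    simp only [hBB] at n1 n2
    rw [if_pos ⟨hyK, by omega⟩] at n1
    rw [if_pos ⟨hyK.trans hgg, hg2N⟩] at n2
    unfold BadF at n1 n2
    rw [mem_filter, not_and] at n1 n2
    have n1' : |th A (v n).toNat (gr η j) - c * gr η j| ≤ η * (c * gr η j) := by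
      by_contra h
      exact n1 hnS ⟨hv0, hvN, not_le.1 h⟩
    have n2' : |th A (v n).toNat (gr η (j + 1)) - c * gr η (j + 1)| ≤ η * (c * gr η (j + 1)) := by
      by_contra h
      exact n2 hnS ⟨hv0, hvN, not_le.1 h⟩
    have m1 := (abs_le.1 n1').1
    have m2 := (abs_le.1 n2').2
    have c1 := th_mono A (v n).toNat g2
    have c2 := th_mono A (v n).toNat g3
    have hcy : 0 ≤ c * y := by positivity
    have u1 : th A (v n).toNat y ≤ (1 + η) * (c * ((1 + η) * y)) := by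
      calc th A (v n).toNat y ≤ th A (v n).toNat (gr η (j + 1)) := c2
        _ ≤ (1 + η) * (c * gr η (j + 1)) := by linarith
        _ ≤ _ := by gcongr
    have u2 : (1 - η) * (c * ((1 - 2 * η) * y)) ≤ th A (v n).toNat y := by
      calc (1 - η) * (c * ((1 - 2 * η) * y)) ≤ (1 - η) * (c * gr η j) := by
            apply mul_le_mul_of_nonneg_left _ (by linarith)
            gcongr
        _ ≤ th A (v n).toNat (gr η j) := by linarith
        _ ≤ _ := c1
    have u3 : |th A (v n).toNat y - c * y| ≤ ε * (c * y) := by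
      rw [abs_le]
      constructor
      · have : (1 - η) * (c * ((1 - 2 * η) * y)) = (1 - 3 * η + 2 * η ^ 2) * (c * y) := by ring
        rw [this] at u2
        have h8 : ε = 8 * η := by rw [hη]; ring
        rw [h8]
        nlinarith [mul_nonneg (sq_nonneg η) hcy]
      · have : (1 + η) * (c * ((1 + η) * y)) = (1 + 2 * η + η ^ 2) * (c * y) := by ring
        rw [this] at u1
        have h8 : ε = 8 * η := by rw [hη]; ring
        rw [h8]
        have h9 : η ^ 2 ≤ η := by nlinarith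
        nlinarith [mul_le_mul_of_nonneg_right h9 hcy]
    linarith
  have h1 : ((ExF A S v N (K + 1) ε).card : ℝ) ≤ ∑ j ∈ range J, ((BB j).card : ℝ) := by
    exact_mod_cast (card_le_card hsub).trans card_biUnion_le
  have h2 : ((ExF A S v N (K + 1) ε).card : ℝ) * ℓ ^ (C + 3) ≤ J * (2 * S.card) := by
    calc ((ExF A S v N (K + 1) ε).card : ℝ) * ℓ ^ (C + 3) ≤
          (∑ j ∈ range J, ((BB j).card : ℝ)) * ℓ ^ (C + 3) := by gcongr
      _ = ∑ j ∈ range J, ((BB j).card : ℝ) * ℓ ^ (C + 3) := by rw [sum_mul]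
      _ ≤ ∑ _j ∈ range J, (2 * (S.card : ℝ)) := sum_le_sum fun j _ => hBBc j
      _ = _ := by rw [sum_const, nsmul_eq_mul, card_range]
  have h3 : (J : ℝ) * 2 ≤ ℓ ^ 2 := by
    have h4 : (J : ℝ) ≤ ℓ / Real.log (1 + η) + 2 := by
      rw [hJ]; push_cast
      have := Nat.floor_le (show 0 ≤ ℓ / Real.log (1 + η) by positivity)
      linarith
    have h5 : 2 / Real.log (1 + η) ≤ ℓ - 8 := by linarith
    have h6 : ℓ / Real.log (1 + η) * 2 ≤ ℓ * (ℓ - 8) := by
      calc ℓ / Real.log (1 + η) * 2 = ℓ * (2 / Real.log (1 + η)) := by ring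
        _ ≤ _ := mul_le_mul_of_nonneg_left h5 hℓ0.le
    nlinarith
  have h4 : (((ExF A S v N (K + 1) ε).card : ℝ) * ℓ ^ C) * ℓ ^ 3 ≤ S.card * ℓ ^ 3 := by
    calc (((ExF A S v N (K + 1) ε).card : ℝ) * ℓ ^ C) * ℓ ^ 3 = ((ExF A S v N (K + 1) ε).card : ℝ) * ℓ ^ (C + 3) := by
          rw [pow_add]; ring
      _ ≤ J * (2 * S.card) := h2
      _ = (J * 2) * S.card := by ring
      _ ≤ ℓ ^ 2 * S.card := by gcongr
      _ ≤ ℓ ^ 3 * S.card := by
          apply mul_le_mul_of_nonneg_right _ hS0.le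
          exact pow_le_pow_right₀ (by linarith) (by omega)
      _ = _ := by ring
  exact le_of_mul_le_mul_right h4 (by positivity)

end Pool.Agent.J4.H93.SF
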