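import Pool.Agent.J4.H93.SF.SF3
import Pool.Agent.W301.SS.Pow

set_option autoImplicit false

/-! Primes in the intervals behind the sums `a + v n`: sparse sets, with a power saving. -/

namespace Pool.Agent.J4.H93.SF
open Finset Filter
open Pool.Agent.H807R2.Dav
open Pool.Agent.W301.SS

/-- the error term, with a power saving -/
lemma ERR_pow (ε d κ3 : ℝ) (hε : 0 < ε) (hd0 : 0 < d) (hd1 : d < 1 / 2) (k1 : κ3 ≤ ε / 2) (k2 : κ3 ≤ 1 / 5) (k3 : κ3 ≤ d / 3)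
    (k0 : 0 < κ3) : ∀ᶠ N : ℕ in atTop, ∀ y H1 : ℕ, (N : ℝ) ^ ε ≤ y → (H1 : ℝ) ≤ 2 * (N : ℝ) ^ (1 - d) →
    ERR (4 * N) y H1 ((N : ℝ) ^ (1 - 2 * d / 3)) ≤ 8000 * (Real.log N ^ 7 * (N : ℝ) ^ (1 - κ3)) := by
  filter_upwards [ev_L 2, eventually_ge_atTop 16] with N h2 hN16 y H1 hy1 hH1le
  have hNr : (16 : ℝ) ≤ N := by exact_mod_cast hN16
  have hN0 : (0 : ℝ) < N := by linarith
  have hN1 : (1 : ℝ) ≤ N := by linarith
  set ℓ := Real.log N with hℓ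
  have hℓ0 : 0 < ℓ := by linarith
  set Q : ℝ := (N : ℝ) ^ (1 - 2 * d / 3) with hQ
  have hQ0 : 0 < Q := by positivity
  set Z : ℝ := (N : ℝ) ^ (1 - κ3) with hZ
  have hZ0 : 0 < Z := by positivity
  have hL : 1 + Real.log ((4 * N : ℕ) : ℝ) ≤ 2 * ℓ + 1 := by
    push_cast
    rw [Real.log_mul (by norm_num) (by linarith)]
    have := log4
    linarith
  have hL0 : 0 ≤ 1 + Real.log ((4 * N : ℕ) : ℝ) := by
    have : 0 ≤ Real.log ((4 * N : ℕ) : ℝ) := Real.log_natCast_nonneg _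
    linarith
  have hL7 : (1 + Real.log ((4 * N : ℕ) : ℝ)) ^ 7 ≤ (5 / 2 * ℓ) ^ 7 :=
    pow_le_pow_left₀ hL0 (by linarith) 7
  have c1 : ((4 * N : ℕ) : ℝ) / √(y : ℝ) ≤ 4 * Z := by
    have a1 : (N : ℝ) ^ (ε / 2) ≤ √(y : ℝ) := by
      apply Real.le_sqrt_of_sq_le
      rw [← Real.rpow_natCast, ← Real.rpow_mul hN0.le]
      refine le_trans (le_of_eq ?_) hy1
      congr 1; push_cast; ring
    have a2 : (N : ℝ) / √(y : ℝ) ≤ Z := by
      calc (N : ℝ) / √(y : ℝ) ≤ N / (N : ℝ) ^ (ε / 2) := by gcongr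
        _ = (N : ℝ) ^ (1 - ε / 2) := by rw [Real.rpow_sub hN0, Real.rpow_one]
        _ ≤ Z := Real.rpow_le_rpow_of_exponent_le hN1 (by linarith)
    push_cast
    rw [mul_div_assoc]
    linarith
  have c2 : ((4 * N : ℕ) : ℝ) ^ (4 / 5 : ℝ) ≤ 4 * Z := by
    push_cast
    rw [Real.mul_rpow (by norm_num) hN0.le]
    have d1 : (4 : ℝ) ^ (4 / 5 : ℝ) ≤ 4 := by
      calc (4 : ℝ) ^ (4 / 5 : ℝ) ≤ (4 : ℝ) ^ (1 : ℝ) :=
            Real.rpow_le_rpow_of_exponent_le (by norm_num) (by norm_num)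
        _ = 4 := Real.rpow_one _
    have d2 : (N : ℝ) ^ (4 / 5 : ℝ) ≤ Z := Real.rpow_le_rpow_of_exponent_le hN1 (by linarith)
    gcongr
  have c3 : √(((4 * N : ℕ) : ℝ) * Q) ≤ 2 * Z := by
    apply Real.sqrt_le_iff.2
    refine ⟨by positivity, ?_⟩
    push_cast
    have a1 : (N : ℝ) * Q ≤ Z ^ 2 := by
      rw [hZ, hQ, ← Real.rpow_natCast, ← Real.rpow_mul hN0.le]
      nth_rewrite 1 [← Real.rpow_one (N : ℝ)]
      rw [← Real.rpow_add hN0]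
      apply Real.rpow_le_rpow_of_exponent_le hN1
      push_cast; linarith
    nlinarith
  have c4 : ((4 * N : ℕ) : ℝ) * H1 / Q ≤ 8 * Z := by
    push_cast
    rw [div_le_iff₀ hQ0]
    have a1 : (N : ℝ) * (N : ℝ) ^ (1 - d) ≤ Z * Q := by
      rw [hZ, hQ, ← Real.rpow_add hN0]
      nth_rewrite 1 [← Real.rpow_one (N : ℝ)]
      rw [← Real.rpow_add hN0]
      apply Real.rpow_le_rpow_of_exponent_le hN1
      linarith
    calc 4 * (N : ℝ) * H1 ≤ 4 * (N : ℝ) * (2 * (N : ℝ) ^ (1 - d)) := by gcongr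
      _ = 8 * ((N : ℝ) * (N : ℝ) ^ (1 - d)) := by ring
      _ ≤ 8 * (Z * Q) := by gcongr
      _ = _ := by ring
  unfold ERR
  have d1 : 0 ≤ ((4 * N : ℕ) : ℝ) / √(y : ℝ) + ((4 * N : ℕ) : ℝ) ^ (4 / 5 : ℝ) +
      √(((4 * N : ℕ) : ℝ) * Q) := by positivity
  have d2 : (1 + Real.log ((4 * N : ℕ) : ℝ)) ^ 7 * (((4 * N : ℕ) : ℝ) / √(y : ℝ) +
      ((4 * N : ℕ) : ℝ) ^ (4 / 5 : ℝ) + √(((4 * N : ℕ) : ℝ) * Q)) ≤
      (5 / 2 * ℓ) ^ 7 * (10 * Z) := by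
    apply mul_le_mul hL7 (by linarith) d1 (by positivity)
  have d3 : (5 / 2 * ℓ) ^ 7 * (10 * Z) ≤ 7000 * (ℓ ^ 7 * Z) := by
    have : (5 / 2 * ℓ) ^ 7 * (10 * Z) = (78125 / 128 * 10) * (ℓ ^ 7 * Z) := by ring
    rw [this]
    have : 0 ≤ ℓ ^ 7 * Z := by positivity
    nlinarith
  have d4 : Z ≤ ℓ ^ 7 * Z := by
    have : 1 ≤ ℓ ^ 7 := one_le_pow₀ (by linarith)
    nlinarith
  linarith

/-- sums over the pairs `(a, n)`, sparse sets -/
theorem thetaPowFam : ∃ c : ℝ, 0 < c ∧ ∀ p : ℕ, 1 ≤ p → ∀ ε : ℝ, 0 < ε → ε < 1 → ∃ κ : ℝ, 0 < κ ∧ κ ≤ ε / 8 ∧ κ ≤ 1 / 20 ∧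
    ∀ C₁ : ℝ, ∀ᶠ N : ℕ in atTop, ∀ A : Finset ℕ, (∀ a ∈ A, a ≤ N) → (N : ℝ) ^ (1 - κ) ≤ A.card →
    ∀ (S : Finset ℕ) (v : ℕ → ℤ), 0 < S.card → Law (4 * N + 1) p C₁ S v →
    ∀ Ω : Finset ℕ, Ω ⊆ S → ∀ u : ℕ → ℕ, (∀ n ∈ Ω, (u n : ℤ) = v n ∧ u n ≤ N) →
    (S.card : ℝ) ≤ (Ω.card : ℝ) * (N : ℝ) ^ κ →
    ∀ y : ℕ, (N : ℝ) ^ ε ≤ y → y ≤ 2 * N → c * ((A.card : ℝ) * Ω.card * y) ≤ TF A Ω u y := by
  classical
  obtain ⟨δ₀, η, hδ₀, hδ₀1, hη, X₀, _, hHoh⟩ := Pool.Agent.H295R3.D.hoheisel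
  obtain ⟨C0, hC0⟩ := vinoP
  have hVC : VC C0 := hC0
  refine ⟨η / 16, by positivity, fun p hp ε hε hε1 => ?_⟩
  have hpr : (1 : ℝ) ≤ p := by exact_mod_cast hp
  have hp0 : (0 : ℝ) < p := by linarith
  set d : ℝ := δ₀ / 2 with hd
  have hd0 : 0 < d := by positivity
  have hd1 : d < 1 / 2 := by rw [hd]; linarith
  set κ3 : ℝ := min (ε / 2) (min (1 / 5) (d / 3)) with hκ3
  have k1 : κ3 ≤ ε / 2 := min_le_left _ _
  have k2 : κ3 ≤ 1 / 5 := (min_le_right _ _).trans (min_le_left _ _)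
  have k3 : κ3 ≤ d / 3 := (min_le_right _ _).trans (min_le_right _ _)
  have k0 : 0 < κ3 := lt_min (by linarith) (lt_min (by norm_num) (by linarith))
  obtain ⟨κ4, hκ4⟩ : ∃ κ4 : ℝ, κ4 = κ3 / (2 * p) := ⟨_, rfl⟩
  have hκ40 : 0 < κ4 := by rw [hκ4]; positivity
  have hκ43 : 2 * p * κ4 = κ3 := by rw [hκ4]; field_simp
  have hκ42 : κ4 ≤ κ3 / 2 := by nlinarith
  refine ⟨κ4 / 4, by linarith, by linarith, by linarith, fun C₁ => ?_⟩
  obtain ⟨c₂, hc₂⟩ : ∃ c₂ : ℝ, c₂ = (6 * C0 + 26) * 8000 := ⟨_, rfl⟩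
  have hc₂0 : 0 < c₂ := by have := hC0.1; rw [hc₂]; positivity
  filter_upwards [theta_long hδ₀ hδ₀1 hη hHoh, ev_L 2,
    ev_log 14 ((|C₁| * c₂ ^ 2 + 64) * (256 / η ^ 2)) (κ4 / 2) (by linarith),
    ERR_pow ε d κ3 hε hd0 hd1 k1 k2 k3 k0,
    eventually_ge_atTop 16] with N h1 h2 h3 h4 hN16 A hA hAN S v hS hlaw Ω hΩ u hu hSΩ y hy1 hy2
  have hNr : (16 : ℝ) ≤ N := by exact_mod_cast hN16
  have hN0 : (0 : ℝ) < N := by linarith
  have hN1 : (1 : ℝ) ≤ N := by linarith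
  set ℓ := Real.log N with hℓ
  have hℓ0 : 0 < ℓ := by linarith
  have hA0 : (0 : ℝ) < A.card := lt_of_lt_of_le (by positivity) hAN
  have hS0 : (0 : ℝ) < S.card := by exact_mod_cast hS
  have hΩ0 : (0 : ℝ) < Ω.card := by
    by_contra hcon
    have : (Ω.card : ℝ) = 0 := le_antisymm (not_lt.1 hcon) (Nat.cast_nonneg _)
    rw [this, zero_mul] at hSΩ
    linarith
  set P : ℝ := (A.card : ℝ) * Ω.card with hP
  have hP0 : 0 < P := by positivity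
  -- long lengths
  have hlong : ∀ z : ℕ, (N : ℝ) ^ (1 - d) ≤ z → z ≤ 2 * N → (η / 8) * (P * z) ≤ TF A Ω u z := by
    intro z hz1 hz2
    unfold TF th
    have e : (η / 8) * (P * z) = ∑ _n ∈ Ω, ∑ _a ∈ A, (η / 8) * z := by
      rw [sum_const, sum_const, nsmul_eq_mul, nsmul_eq_mul, hP]; ring
    rw [e]
    apply sum_le_sum; intro n hn
    apply sum_le_sum; intro a ha
    exact h1 (a + u n) z (by have := hA a ha; have := (hu n hn).2; omega) hz1 hz2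
  rcases le_or_gt ((N : ℝ) ^ (1 - d)) y with hcase | hcase
  · refine le_trans ?_ (hlong y hcase hy2)
    have : 0 ≤ P * y := by positivity
    nlinarith
  · set H1 : ℕ := ⌈(N : ℝ) ^ (1 - d)⌉₊ with hH1
    have hH1ge : (N : ℝ) ^ (1 - d) ≤ H1 := Nat.le_ceil _
    have hpow1 : (1 : ℝ) ≤ (N : ℝ) ^ (1 - d) := Real.one_le_rpow hN1 (by linarith)
    have hH1le : (H1 : ℝ) ≤ 2 * (N : ℝ) ^ (1 - d) := by
      have := Nat.ceil_lt_add_one (show 0 ≤ (N : ℝ) ^ (1 - d) by positivity)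
      rw [← hH1] at this
      linarith
    have hH1N : H1 ≤ 2 * N := by
      have : (N : ℝ) ^ (1 - d) ≤ N := by
        calc (N : ℝ) ^ (1 - d) ≤ (N : ℝ) ^ (1 : ℝ) := Real.rpow_le_rpow_of_exponent_le hN1 (by linarith)
          _ = N := Real.rpow_one _
      have h5 : (H1 : ℝ) ≤ 2 * N := by linarith
      exact_mod_cast h5
    have hyH1 : y ≤ H1 := by
      have : (y : ℝ) ≤ H1 := hcase.le.trans hH1ge
      exact_mod_cast this
    have hy0 : (1 : ℝ) ≤ y := le_trans (Real.one_le_rpow hN1 hε.le) hy1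
    have hy1n : 1 ≤ y := by exact_mod_cast hy0
    have hyp : (0 : ℝ) < y := by linarith
    have hH10 : (0 : ℝ) < H1 := by linarith
    set Q : ℝ := (N : ℝ) ^ (1 - 2 * d / 3) with hQ
    have hQ0 : 0 < Q := by positivity
    have b2 := hlong H1 hH1ge hH1N
    obtain ⟨δ, hδ⟩ : ∃ δ : ℝ, δ = (N : ℝ) ^ (-κ4) := ⟨_, rfl⟩
    have hδ0 : 0 < δ := by rw [hδ]; positivity
    have hfew := hlaw.few hS δ hδ0
    have hW := all_points hVC (N := 4 * N) (by omega) y H1 hy1n hyH1 Q hQ0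
    have hdiff := TF_diff (N := 4 * N) (M := 4 * N + 1) (by omega) (by omega) A S Ω hΩ u v (fun n hn => (hu n hn).1)
      (fun a ha => by have := hA a ha; omega) y H1 hy1n hyH1
      (fun a ha n hn => by have := hA a ha; have := (hu n hn).2; omega) _ hW δ _ hδ0.le hfew
    have hE := h4 y H1 hy1 hH1le
    have hE0 : 0 ≤ ERR (4 * N) y H1 Q := by
      unfold ERR
      have : 0 ≤ Real.log ((4 * N : ℕ) : ℝ) := Real.log_natCast_nonneg _
      positivity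
    have hW0 : 0 ≤ (6 * C0 + 26) * ERR (4 * N) y H1 Q := by have := hC0.1; positivity
    have hW1 : (6 * C0 + 26) * ERR (4 * N) y H1 Q ≤ c₂ * (ℓ ^ 7 * (N : ℝ) ^ (1 - κ3)) := by
      rw [hc₂, mul_assoc]
      exact mul_le_mul_of_nonneg_left hE (by have := hC0.1; positivity)
    have hC₁0 : 0 ≤ C₁ := hlaw.nonneg hS
    have d1 : C₁ / δ ^ (2 * p) * ((6 * C0 + 26) * ERR (4 * N) y H1 Q) ^ 2 / ((4 * N + 1 : ℕ) : ℝ) ≤
        C₁ * c₂ ^ 2 * (ℓ ^ 14 * (N : ℝ) ^ (1 - κ4)) := by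
      have e0 : δ ^ (2 * p) = (N : ℝ) ^ (-κ3) := by
        rw [hδ, ← Real.rpow_natCast, ← Real.rpow_mul hN0.le]
        congr 1
        push_cast
        linarith
      have e1 : (N : ℝ) ^ κ3 * ((N : ℝ) ^ (1 - κ3)) ^ 2 / N = (N : ℝ) ^ (1 - κ3) := by
        rw [← Real.rpow_natCast, ← Real.rpow_mul hN0.le, ← Real.rpow_add hN0]
        nth_rewrite 2 [← Real.rpow_one (N : ℝ)]
        rw [← Real.rpow_sub hN0]
        congr 1
        push_cast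
        ring
      calc C₁ / δ ^ (2 * p) * ((6 * C0 + 26) * ERR (4 * N) y H1 Q) ^ 2 / ((4 * N + 1 : ℕ) : ℝ) ≤
          C₁ / δ ^ (2 * p) * (c₂ * (ℓ ^ 7 * (N : ℝ) ^ (1 - κ3))) ^ 2 / N := by
            gcongr
            push_cast
            linarith
        _ = C₁ * c₂ ^ 2 * (ℓ ^ 14 * ((N : ℝ) ^ κ3 * ((N : ℝ) ^ (1 - κ3)) ^ 2 / N)) := by
            rw [e0, Real.rpow_neg hN0.le]
            field_simp
        _ = C₁ * c₂ ^ 2 * (ℓ ^ 14 * (N : ℝ) ^ (1 - κ3)) := by rw [e1]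
        _ ≤ _ := by
            apply mul_le_mul_of_nonneg_left _ (by positivity)
            apply mul_le_mul_of_nonneg_left _ (by positivity)
            exact Real.rpow_le_rpow_of_exponent_le hN1 (by linarith)
    have d2 : 8 * δ * ((4 * N : ℕ) : ℝ) * Real.log ((4 * N : ℕ) : ℝ) ≤ 64 * (ℓ ^ 14 * (N : ℝ) ^ (1 - κ4)) := by
      have e1 : Real.log ((4 * N : ℕ) : ℝ) ≤ 2 * ℓ := by
        push_cast
        rw [Real.log_mul (by norm_num) (by linarith)]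
        have := log4
        linarith
      have e2 : δ * N = (N : ℝ) ^ (1 - κ4) := by
        rw [hδ]
        nth_rewrite 2 [← Real.rpow_one (N : ℝ)]
        rw [← Real.rpow_add hN0]
        congr 1
        ring
      have e3 : ℓ ≤ ℓ ^ 14 := by
        calc ℓ = ℓ ^ 1 := (pow_one _).symm
          _ ≤ ℓ ^ 14 := pow_le_pow_right₀ (by linarith) (by norm_num)
      calc 8 * δ * ((4 * N : ℕ) : ℝ) * Real.log ((4 * N : ℕ) : ℝ) ≤ 8 * δ * ((4 * N : ℕ) : ℝ) * (2 * ℓ) := by gcongr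
        _ = 64 * (ℓ * (δ * N)) := by push_cast; ring
        _ = 64 * (ℓ * (N : ℝ) ^ (1 - κ4)) := by rw [e2]
        _ ≤ _ := by gcongr
    have d3 : (TF A Ω u y / y - TF A Ω u H1 / H1) ^ 2 ≤ (η / 16 * P) ^ 2 := by
      refine hdiff.trans ?_
      have e1 : C₁ / δ ^ (2 * p) * ((6 * C0 + 26) * ERR (4 * N) y H1 Q) ^ 2 / ((4 * N + 1 : ℕ) : ℝ) +
          8 * δ * ((4 * N : ℕ) : ℝ) * Real.log ((4 * N : ℕ) : ℝ) ≤ (η / 16) ^ 2 * (N : ℝ) ^ (1 - κ4 / 2) := by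
        calc C₁ / δ ^ (2 * p) * ((6 * C0 + 26) * ERR (4 * N) y H1 Q) ^ 2 / ((4 * N + 1 : ℕ) : ℝ) +
            8 * δ * ((4 * N : ℕ) : ℝ) * Real.log ((4 * N : ℕ) : ℝ) ≤
            C₁ * c₂ ^ 2 * (ℓ ^ 14 * (N : ℝ) ^ (1 - κ4)) + 64 * (ℓ ^ 14 * (N : ℝ) ^ (1 - κ4)) := add_le_add d1 d2
          _ = (η / 16) ^ 2 * (((C₁ * c₂ ^ 2 + 64) * (256 / η ^ 2) * ℓ ^ 14) * (N : ℝ) ^ (1 - κ4)) := by
              field_simp
              norm_num
          _ ≤ (η / 16) ^ 2 * ((N : ℝ) ^ (κ4 / 2) * (N : ℝ) ^ (1 - κ4)) := by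
              have : |C₁| = C₁ := abs_of_nonneg hC₁0
              rw [this] at h3
              gcongr
          _ = _ := by
              rw [← Real.rpow_add hN0]
              congr 2
              ring
      calc (Ω.card : ℝ) * (S.card * (A.card * (C₁ / δ ^ (2 * p) *
            ((6 * C0 + 26) * ERR (4 * N) y H1 Q) ^ 2 / ((4 * N + 1 : ℕ) : ℝ) +
            8 * δ * ((4 * N : ℕ) : ℝ) * Real.log ((4 * N : ℕ) : ℝ)))) ≤
          Ω.card * ((Ω.card * (N : ℝ) ^ (κ4 / 4)) * (A.card * ((η / 16) ^ 2 * (N : ℝ) ^ (1 - κ4 / 2)))) := by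
            gcongr
        _ = (η / 16) ^ 2 * (Ω.card ^ 2 * A.card) * ((N : ℝ) ^ (κ4 / 4) * (N : ℝ) ^ (1 - κ4 / 2)) := by ring
        _ = (η / 16) ^ 2 * (Ω.card ^ 2 * A.card) * (N : ℝ) ^ (1 - κ4 / 4) := by
            rw [← Real.rpow_add hN0]
            congr 2
            ring
        _ ≤ (η / 16) ^ 2 * (Ω.card ^ 2 * A.card) * A.card := mul_le_mul_of_nonneg_left hAN (by positivity)
        _ = _ := by rw [hP]; ring
    have b3 : |TF A Ω u y / y - TF A Ω u H1 / H1| ≤ (η / 16) * P := abs_le_of_sq_le_sq d3 (by positivity)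
    have b3' := (abs_le.1 b3).1
    have b4 : (η / 8) * P ≤ TF A Ω u H1 / H1 := by
      rw [le_div_iff₀ hH10]; linarith
    have b5 : (η / 16) * P ≤ TF A Ω u y / y := by linarith
    rw [le_div_iff₀ hyp] at b5
    linarith

open Classical in
/-- the exceptional indices -/
noncomputable def ExP (A S : Finset ℕ) (v : ℕ → ℤ) (N : ℕ) (c ε : ℝ) : Finset ℕ :=
  S.filter (fun n => 0 ≤ v n ∧ v n ≤ N ∧ ∃ y : ℕ, (N : ℝ) ^ ε ≤ y ∧ y ≤ N ∧ th A (v n).toNat y < c * ((A.card : ℝ) * y))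

/-- **Almost all elements of the family, with a power saving.** -/
theorem transPowFam : ∃ c : ℝ, 0 < c ∧ c ≤ 1 ∧ ∀ p : ℕ, 1 ≤ p → ∀ ε : ℝ, 0 < ε → ε < 1 → ∃ κ : ℝ, 0 < κ ∧ κ ≤ ε / 16 ∧
    κ ≤ 1 / 40 ∧ ∀ C₁ : ℝ, ∀ᶠ N : ℕ in atTop, ∀ A : Finset ℕ, (∀ a ∈ A, a ≤ N) → (N : ℝ) ^ (1 - κ) ≤ A.card →
    ∀ (S : Finset ℕ) (v : ℕ → ℤ), Law (4 * N + 1) p C₁ S v →
    ((ExP A S v N c ε).card : ℝ) * (N : ℝ) ^ κ ≤ S.card := by
  classical
  obtain ⟨c, hc, hmain⟩ := thetaPowFam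
  refine ⟨min 1 (c / 2), lt_min one_pos (by positivity), min_le_left _ _, fun p hp ε hε hε1 => ?_⟩
  obtain ⟨κ, hκ0, hκ1, hκ2, hev⟩ := hmain p hp (ε / 2) (by linarith) (by linarith)
  refine ⟨κ / 2, by linarith, by linarith, by linarith, fun C₁ => ?_⟩
  filter_upwards [hev C₁, ev_L 4, ev_log 1 4 (κ / 2) (by linarith), ev_pow 2 (ε / 2) (by linarith),
    eventually_ge_atTop 16] with N h1 h2 h3 h4 hN16 A hA hAN S v hlaw
  have hNr : (16 : ℝ) ≤ N := by exact_mod_cast hN16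
  have hN0 : (0 : ℝ) < N := by linarith
  have hN1 : (1 : ℝ) ≤ N := by linarith
  set ℓ := Real.log N with hℓ
  have hℓ0 : 0 < ℓ := by linarith
  rw [pow_one] at h3
  rcases Nat.eq_zero_or_pos S.card with hS | hS
  · have : (ExP A S v N (min 1 (c / 2)) ε).card = 0 := by
      have := card_le_card (filter_subset (fun n => 0 ≤ v n ∧ v n ≤ N ∧ ∃ y : ℕ, (N : ℝ) ^ ε ≤ y ∧ y ≤ N ∧
        th A (v n).toNat y < min 1 (c / 2) * ((A.card : ℝ) * y)) S)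
      unfold ExP
      omega
    rw [this, hS]
    simp
  have hS0 : (0 : ℝ) < S.card := by exact_mod_cast hS
  have hAN' : (N : ℝ) ^ (1 - κ) ≤ A.card :=
    (Real.rpow_le_rpow_of_exponent_le hN1 (by linarith)).trans hAN
  set Bm : ℕ → Finset ℕ := fun g => S.filter (fun n => 0 ≤ v n ∧ v n ≤ N ∧ th A (v n).toNat g < c * ((A.card : ℝ) * g))
    with hBm
  have hBmc : ∀ g : ℕ, (N : ℝ) ^ (ε / 2) ≤ g → g ≤ 2 * N →
      ((Bm g).card : ℝ) * (N : ℝ) ^ κ ≤ S.card := by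
    intro g hg1 hg2
    by_contra hcon
    rw [not_le] at hcon
    have a1 := h1 A hA hAN' S v hS hlaw (Bm g) (filter_subset _ _) (fun n => (v n).toNat) (fun n hn => by
      simp only [hBm, mem_filter] at hn
      constructor
      · show ((v n).toNat : ℤ) = v n
        omega
      · show (v n).toNat ≤ N
        omega) hcon.le g hg1 hg2
    have hne : (Bm g).Nonempty := by
      by_contra hne
      rw [not_nonempty_iff_eq_empty] at hne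
      rw [hne] at hcon
      simp at hcon
      linarith
    have a2 : ∑ n ∈ Bm g, th A (v n).toNat g < ∑ _n ∈ Bm g, c * ((A.card : ℝ) * g) := by
      apply sum_lt_sum_of_nonempty hne
      intro b hb
      simp only [hBm, mem_filter] at hb
      exact hb.2.2.2
    rw [sum_const, nsmul_eq_mul] at a2
    unfold TF at a1
    nlinarith
  set J : ℕ := Nat.log 2 N + 1 with hJ
  set BB : ℕ → Finset ℕ := fun j => if (N : ℝ) ^ (ε / 2) ≤ ((2 ^ j : ℕ) : ℝ) ∧ 2 ^ j ≤ 2 * N then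
    Bm (2 ^ j) else ∅ with hBB
  have hBBc : ∀ j, ((BB j).card : ℝ) * (N : ℝ) ^ κ ≤ S.card := by
    intro j
    simp only [hBB]
    split_ifs with h
    · exact hBmc _ h.1 h.2
    · simp
  have hsub : ExP A S v N (min 1 (c / 2)) ε ⊆ (range J).biUnion BB := by
    intro n hn
    unfold ExP at hn
    rw [mem_filter] at hn
    obtain ⟨hnS, hv0, hvN, y, hy1, hy2, hy3⟩ := hn
    have hyr : (1 : ℝ) ≤ y := (Real.one_le_rpow hN1 hε.le).trans hy1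
    have hy0 : y ≠ 0 := by
      intro h0; rw [h0] at hyr; norm_num at hyr
    set j := Nat.log 2 y with hj
    have g1 : 2 ^ j ≤ y := Nat.pow_log_le_self 2 hy0
    have g2 : y < 2 ^ (j + 1) := Nat.lt_pow_succ_log_self (by norm_num) y
    have g3 : (y : ℝ) ≤ 2 * ((2 ^ j : ℕ) : ℝ) := by
      have : y ≤ 2 * 2 ^ j := by rw [pow_succ] at g2; omega
      exact_mod_cast this
    have g4 : (N : ℝ) ^ (ε / 2) ≤ ((2 ^ j : ℕ) : ℝ) := by
      have a1 : (N : ℝ) ^ (ε / 2) * 2 ≤ y := by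
        calc (N : ℝ) ^ (ε / 2) * 2 ≤ (N : ℝ) ^ (ε / 2) * (N : ℝ) ^ (ε / 2) := by gcongr
          _ = (N : ℝ) ^ ε := by rw [← Real.rpow_add hN0]; congr 1; ring
          _ ≤ y := hy1
      linarith
    have g5 : 2 ^ j ≤ 2 * N := by omega
    have hjJ : j < J := by
      have : j ≤ Nat.log 2 N := Nat.log_mono_right hy2
      omega
    rw [mem_biUnion]
    refine ⟨j, mem_range.2 hjJ, ?_⟩
    simp only [hBB]
    rw [if_pos ⟨g4, g5⟩]
    simp only [hBm, mem_filter]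
    refine ⟨hnS, hv0, hvN, ?_⟩
    have a1 : th A (v n).toNat (2 ^ j) ≤ th A (v n).toNat y := th_mono A _ g1
    have a2 : min 1 (c / 2) * ((A.card : ℝ) * y) ≤ c * ((A.card : ℝ) * ((2 ^ j : ℕ) : ℝ)) := by
      calc min 1 (c / 2) * ((A.card : ℝ) * y) ≤ (c / 2) * ((A.card : ℝ) * (2 * ((2 ^ j : ℕ) : ℝ))) := by
            apply mul_le_mul (min_le_right _ _) _ (by positivity) (by positivity)
            gcongr
        _ = _ := by ring
    linarith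
  have e1 : ((ExP A S v N (min 1 (c / 2)) ε).card : ℝ) ≤ ∑ j ∈ range J, ((BB j).card : ℝ) := by
    exact_mod_cast (card_le_card hsub).trans card_biUnion_le
  have e2 : ((ExP A S v N (min 1 (c / 2)) ε).card : ℝ) * (N : ℝ) ^ κ ≤ J * S.card := by
    calc ((ExP A S v N (min 1 (c / 2)) ε).card : ℝ) * (N : ℝ) ^ κ ≤ (∑ j ∈ range J, ((BB j).card : ℝ)) * (N : ℝ) ^ κ := by gcongr
      _ = ∑ j ∈ range J, ((BB j).card : ℝ) * (N : ℝ) ^ κ := by rw [sum_mul]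
      _ ≤ ∑ _j ∈ range J, (S.card : ℝ) := sum_le_sum fun j _ => hBBc j
      _ = _ := by rw [sum_const, nsmul_eq_mul, card_range]
  have e3 : (J : ℝ) ≤ 4 * ℓ := by
    have h5 : (Nat.log 2 N : ℝ) * Real.log 2 ≤ ℓ := by
      have h6 : (2 : ℝ) ^ Nat.log 2 N ≤ (N : ℝ) := by
        exact_mod_cast Nat.pow_log_le_self 2 (by omega)
      have h7 := Real.log_le_log (by positivity) h6
      rwa [Real.log_pow] at h7
    have h6 := Real.log_two_gt_d9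
    have h7 : (0 : ℝ) ≤ Nat.log 2 N := Nat.cast_nonneg _
    rw [hJ]; push_cast
    nlinarith
  have e4 : (((ExP A S v N (min 1 (c / 2)) ε).card : ℝ) * (N : ℝ) ^ (κ / 2)) * (N : ℝ) ^ (κ / 2) ≤ S.card * (N : ℝ) ^ (κ / 2) := by
    calc (((ExP A S v N (min 1 (c / 2)) ε).card : ℝ) * (N : ℝ) ^ (κ / 2)) * (N : ℝ) ^ (κ / 2) =
        ((ExP A S v N (min 1 (c / 2)) ε).card : ℝ) * (N : ℝ) ^ κ := by
          rw [mul_assoc, ← Real.rpow_add hN0]
          congr 2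
          ring
      _ ≤ J * S.card := e2
      _ ≤ (4 * ℓ) * S.card := by gcongr
      _ ≤ (N : ℝ) ^ (κ / 2) * S.card := by gcongr
      _ = _ := by ring
  exact le_of_mul_le_mul_right e4 (by positivity)

end Pool.Agent.J4.H93.SF
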