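import Pool.Agent.J4.H93.SF.SF4
import Pool.Agent.W301.SS.Avg

set_option autoImplicit false

/-! From the sums of `log p` to the averages of `π(x, H) log x / H`. -/

namespace Pool.Agent.J4.H93.SF
open Finset Filter
open Pool.Agent.W301.SS

/-- `π(x, H) log x / H`, where `π(x, H)` is the number of the primes in `(x, x + H]` -/
noncomputable def dens (x : ℕ) (H : ℝ) : ℝ := ((Nat.primeCounting ⌊(x : ℝ) + H⌋₊ : ℝ) - Nat.primeCounting x) * Real.log x / H

lemma dens_eq (x : ℕ) (H : ℝ) (hH : 0 ≤ H) : dens x H = (Real.log x / H) * (pn x ⌊H⌋₊ : ℝ) := by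
  unfold dens
  rw [pn_floor x H hH]
  ring

lemma dens_nonneg (x : ℕ) (H : ℝ) (hH : 0 ≤ H) : 0 ≤ dens x H := by
  rw [dens_eq x H hH]
  have : 0 ≤ Real.log (x : ℝ) := Real.log_natCast_nonneg x
  positivity

/-- `log p ≥ log x` behind `x` -/
lemma pn_om (x y : ℕ) (hx : 1 ≤ x) : Real.log x * (pn x y : ℝ) ≤ ∑ h ∈ Ioc 0 y, om (x + h) := by
  rw [pn_eq, mul_sum]
  apply sum_le_sum
  intro h _
  unfold om
  split_ifs with hp
  · rw [mul_one]
    apply Real.log_le_log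
    · exact_mod_cast hx
    · exact_mod_cast Nat.le_add_right x h
  · rw [mul_zero]

lemma om_pn (x y : ℕ) (L : ℝ) (hL : Real.log ((x + y : ℕ) : ℝ) ≤ L) : ∑ h ∈ Ioc 0 y, om (x + h) ≤ L * (pn x y : ℝ) := by
  rw [pn_eq, mul_sum]
  apply sum_le_sum
  intro h hh
  rw [mem_Ioc] at hh
  unfold om
  split_ifs with hp
  · rw [mul_one]
    refine le_trans (Real.log_le_log ?_ ?_) hL
    · exact_mod_cast hp.pos
    · exact_mod_cast (by omega : x + h ≤ x + y)
  · rw [mul_zero]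

lemma th_upper (A : Finset ℕ) (b y N : ℕ) (hA : A ⊆ Icc 1 N) : ∑ a ∈ A, Real.log ((a + b : ℕ) : ℝ) * (pn (a + b) y : ℝ) ≤ th A b y := by
  unfold th
  apply sum_le_sum
  intro a ha
  have := mem_Icc.1 (hA ha)
  exact pn_om (a + b) y (by omega)

lemma th_lower (A : Finset ℕ) (b y N : ℕ) (hA : A ⊆ Icc 1 N) (hb : b ≤ N) (hy : y ≤ N) (L : ℝ)
    (hL : Real.log ((4 * N : ℕ) : ℝ) ≤ L) : th A b y ≤ L * cs A b y := by
  unfold th cs
  rw [mul_sum]
  apply sum_le_sum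
  intro a ha
  have h1 := mem_Icc.1 (hA ha)
  apply om_pn (a + b) y L
  refine le_trans (Real.log_le_log ?_ ?_) hL
  · exact_mod_cast (by omega : 0 < a + b + y)
  · exact_mod_cast (by omega : a + b + y ≤ 4 * N)

/-- the part of the elements above `X` -/
lemma cs_above (A : Finset ℕ) (b y X : ℕ) : cs A b y ≤ ∑ a ∈ A.filter (fun a => X ≤ a), (pn (a + b) y : ℝ) + X * y := by
  unfold cs
  rw [← sum_filter_add_sum_filter_not A (fun a => X ≤ a)]
  have h1 : ∑ a ∈ A.filter (fun a => ¬ X ≤ a), (pn (a + b) y : ℝ) ≤ X * y := by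
    calc ∑ a ∈ A.filter (fun a => ¬ X ≤ a), (pn (a + b) y : ℝ) ≤ ∑ a ∈ A.filter (fun a => ¬ X ≤ a), (y : ℝ) := by
          apply sum_le_sum
          intro a _
          exact_mod_cast pn_le _ _
      _ = ((A.filter (fun a => ¬ X ≤ a)).card : ℝ) * y := by rw [sum_const, nsmul_eq_mul]
      _ ≤ X * y := by
          apply mul_le_mul_of_nonneg_right _ (Nat.cast_nonneg _)
          have h2 : A.filter (fun a => ¬ X ≤ a) ⊆ range X := by
            intro a ha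
            rw [mem_filter, not_le] at ha
            exact mem_range.2 ha.2
          have h3 := card_le_card h2
          rw [card_range] at h3
          exact_mod_cast h3
  linarith

lemma card_above (A G : Finset ℕ) (X : ℕ) (P : ℕ → Prop) [DecidablePred P] (hG : G ⊆ A)
    (h : ∀ a ∈ G, X ≤ a → P a) : (G.card : ℝ) ≤ (A.filter P).card + X := by
  have h1 : G ⊆ A.filter P ∪ range X := by
    intro a ha
    rw [mem_union, mem_filter, mem_range]
    rcases Nat.lt_or_ge a X with h2 | h2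
    · exact Or.inr h2
    · exact Or.inl ⟨hG ha, h a ha h2⟩
  have h2 := (card_le_card h1).trans (card_union_le _ _)
  rw [card_range] at h2
  exact_mod_cast h2

/-- the conditions of the sieve bound, dense sets -/
lemma cond_dense (C : ℕ) (δ : ℝ) (hδ0 : 0 < δ) : ∀ᶠ N : ℕ in atTop,
    ∀ A : Finset ℕ, (N : ℝ) ≤ (A.card : ℝ) * Real.log N ^ C → ∀ y : ℕ, Real.log N ^ (C + 20) ≤ y →
    (3 * (N : ℝ) ^ (1 - δ) + (2 * N / y) * (2 * Real.log N) ^ 16) * (4 * Real.log N ^ 2 / δ ^ 2) ≤ A.card ∧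
      (N : ℝ) ^ (1 / 4 : ℝ) * (2 * Real.log N / δ) ≤ A.card := by
  filter_upwards [ev_L (1024 / δ + 4), ev_log (C + 2) (24 / δ ^ 2) δ hδ0,
    ev_log (C + 1) (2 / δ) (3 / 4) (by norm_num), eventually_ge_atTop 16] with
    N h3 h4 h5 hN16 A hAN y hyC
  have hNr : (16 : ℝ) ≤ N := by exact_mod_cast hN16
  have hN0 : (0 : ℝ) < N := by linarith
  set ℓ := Real.log N with hℓ
  have hd1 : 0 < 1024 / δ := by positivity
  have hℓ4 : 4 ≤ ℓ := by linarith
  have hℓ0 : 0 < ℓ := by linarith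
  have hyr : (1 : ℝ) ≤ y := (one_le_pow₀ (by linarith)).trans hyC
  have hy0 : (0 : ℝ) < y := by linarith
  have hAc : (N : ℝ) / ℓ ^ C ≤ A.card := by
    rw [div_le_iff₀ (by positivity)]; exact hAN
  constructor
  · refine le_trans ?_ hAc
    have a1 : 3 * (N : ℝ) ^ (1 - δ) * (4 * ℓ ^ 2 / δ ^ 2) ≤ (1 / 2) * (N / ℓ ^ C) := by
      have e1 : 3 * (N : ℝ) ^ (1 - δ) * (4 * ℓ ^ 2 / δ ^ 2) =
          (1 / 2) * ((24 / δ ^ 2 * ℓ ^ (C + 2)) * (N : ℝ) ^ (1 - δ) / ℓ ^ C) := by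
        rw [pow_add]; field_simp; ring
      rw [e1]
      apply mul_le_mul_of_nonneg_left _ (by norm_num)
      apply div_le_div_of_nonneg_right _ (by positivity)
      calc (24 / δ ^ 2 * ℓ ^ (C + 2)) * (N : ℝ) ^ (1 - δ) ≤ (N : ℝ) ^ δ * (N : ℝ) ^ (1 - δ) := by gcongr
        _ = N := by rw [← Real.rpow_add hN0]; norm_num
    have a2 : (2 * N / y) * (2 * ℓ) ^ 16 * (4 * ℓ ^ 2 / δ ^ 2) ≤ (1 / 2) * (N / ℓ ^ C) := by
      have e1 : (2 * N / y) * (2 * ℓ) ^ 16 * (4 * ℓ ^ 2 / δ ^ 2) =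
          (1 / 2) * (N / ℓ ^ C) * ((1048576 / δ ^ 2) * ℓ ^ (C + 18) / y) := by
        rw [pow_add]; field_simp; ring
      rw [e1]
      have e2 : (1048576 / δ ^ 2) * ℓ ^ (C + 18) / y ≤ 1 := by
        rw [div_le_one hy0]
        refine le_trans ?_ hyC
        have e3 : ℓ ^ (C + 20) = ℓ ^ 2 * ℓ ^ (C + 18) := by rw [← pow_add]; congr 1; omega
        rw [e3]
        apply mul_le_mul_of_nonneg_right _ (by positivity)
        have e4 : 1024 / δ ≤ ℓ := by linarith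
        calc 1048576 / δ ^ 2 = (1024 / δ) ^ 2 := by field_simp; norm_num
          _ ≤ ℓ ^ 2 := pow_le_pow_left₀ hd1.le e4 2
      calc _ ≤ (1 / 2) * (N / ℓ ^ C) * 1 := mul_le_mul_of_nonneg_left e2 (by positivity)
        _ = _ := by ring
    calc _ = 3 * (N : ℝ) ^ (1 - δ) * (4 * ℓ ^ 2 / δ ^ 2) +
          (2 * N / y) * (2 * ℓ) ^ 16 * (4 * ℓ ^ 2 / δ ^ 2) := by ring
      _ ≤ _ := by linarith
  · refine le_trans ?_ hAc
    rw [le_div_iff₀ (by positivity)]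
    calc (N : ℝ) ^ (1 / 4 : ℝ) * (2 * ℓ / δ) * ℓ ^ C =
          (N : ℝ) ^ (1 / 4 : ℝ) * (2 / δ * ℓ ^ (C + 1)) := by
            have e1 : ℓ ^ (C + 1) = ℓ ^ C * ℓ := pow_succ ℓ C
            rw [e1]; ring
      _ ≤ (N : ℝ) ^ (1 / 4 : ℝ) * (N : ℝ) ^ (3 / 4 : ℝ) := by gcongr
      _ = N := by rw [← Real.rpow_add hN0]; norm_num

/-- the conditions of the sieve bound, sparse sets -/
lemma cond_sparse (κ' ε d : ℝ) (hε : 0 < ε) (hκε : κ' ≤ ε / 16) (hκ : κ' ≤ 1 / 40) (hd0 : 0 < d) (hd1 : 2 * κ' ≤ d) :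
    ∀ᶠ N : ℕ in atTop, ∀ A : Finset ℕ, (N : ℝ) ^ (1 - κ') ≤ A.card → ∀ y : ℕ, (N : ℝ) ^ ε ≤ y →
      (3 * (N : ℝ) ^ (1 - d) + (2 * N / y) * (2 * Real.log N) ^ 16) * (4 * Real.log N ^ 2 / d ^ 2) ≤
        A.card ∧ (N : ℝ) ^ (1 / 4 : ℝ) * (2 * Real.log N / d) ≤ A.card := by
  filter_upwards [ev_log 2 (24 / d ^ 2) (d / 2) (by linarith),
    ev_log 18 (1048576 / d ^ 2) (ε / 2) (by linarith), ev_log 1 (2 / d) (1 / 2) (by norm_num),
    ev_L 4, eventually_ge_atTop 16] with N h1 h2 h3 h4 hN16 A hAN y hy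
  have hNr : (16 : ℝ) ≤ N := by exact_mod_cast hN16
  have hN0 : (0 : ℝ) < N := by linarith
  have hN1 : (1 : ℝ) ≤ N := by linarith
  set ℓ := Real.log N with hℓ
  have hℓ0 : 0 < ℓ := by linarith
  have hy0 : (0 : ℝ) < y := lt_of_lt_of_le (by positivity) hy
  constructor
  · refine le_trans ?_ hAN
    have a1 : 3 * (N : ℝ) ^ (1 - d) * (4 * ℓ ^ 2 / d ^ 2) ≤ (1 / 2) * (N : ℝ) ^ (1 - κ') := by
      have e1 : 3 * (N : ℝ) ^ (1 - d) * (4 * ℓ ^ 2 / d ^ 2) =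
          (1 / 2) * ((24 / d ^ 2 * ℓ ^ 2) * (N : ℝ) ^ (1 - d)) := by field_simp; ring
      rw [e1]
      apply mul_le_mul_of_nonneg_left _ (by norm_num)
      calc (24 / d ^ 2 * ℓ ^ 2) * (N : ℝ) ^ (1 - d) ≤ (N : ℝ) ^ (d / 2) * (N : ℝ) ^ (1 - d) := by gcongr
        _ = (N : ℝ) ^ (1 - d / 2) := by rw [← Real.rpow_add hN0]; congr 1; ring
        _ ≤ _ := Real.rpow_le_rpow_of_exponent_le hN1 (by linarith)
    have a2 : (2 * N / y) * (2 * ℓ) ^ 16 * (4 * ℓ ^ 2 / d ^ 2) ≤ (1 / 2) * (N : ℝ) ^ (1 - κ') := by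
      calc (2 * N / y) * (2 * ℓ) ^ 16 * (4 * ℓ ^ 2 / d ^ 2) ≤
            (2 * N / (N : ℝ) ^ ε) * (2 * ℓ) ^ 16 * (4 * ℓ ^ 2 / d ^ 2) := by gcongr
        _ = (1 / 2) * ((1048576 / d ^ 2 * ℓ ^ 18) * (N / (N : ℝ) ^ ε)) := by field_simp; ring
        _ ≤ (1 / 2) * ((N : ℝ) ^ (ε / 2) * (N / (N : ℝ) ^ ε)) := by gcongr
        _ = (1 / 2) * (N : ℝ) ^ (1 - ε / 2) := by
            congr 1
            nth_rewrite 2 [← Real.rpow_one (N : ℝ)]
            rw [← Real.rpow_sub hN0, ← Real.rpow_add hN0]; congr 1; ring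
        _ ≤ _ := by
            apply mul_le_mul_of_nonneg_left _ (by norm_num)
            exact Real.rpow_le_rpow_of_exponent_le hN1 (by linarith)
    calc _ = 3 * (N : ℝ) ^ (1 - d) * (4 * ℓ ^ 2 / d ^ 2) +
          (2 * N / y) * (2 * ℓ) ^ 16 * (4 * ℓ ^ 2 / d ^ 2) := by ring
      _ ≤ _ := by linarith
  · refine le_trans ?_ hAN
    rw [pow_one] at h3
    calc (N : ℝ) ^ (1 / 4 : ℝ) * (2 * ℓ / d) = (N : ℝ) ^ (1 / 4 : ℝ) * (2 / d * ℓ) := by ring
      _ ≤ (N : ℝ) ^ (1 / 4 : ℝ) * (N : ℝ) ^ (1 / 2 : ℝ) := by gcongr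
      _ ≤ (N : ℝ) ^ (1 - κ') := by
          rw [← Real.rpow_add hN0]
          exact Real.rpow_le_rpow_of_exponent_le hN1 (by linarith)

open Classical in
/-- **The average, dense sets.** -/
theorem good_asym (C K : ℕ) (δ : ℝ) (hδ : 0 < δ) (hδ1 : δ ≤ 1) : ∀ᶠ N : ℕ in atTop,
    ∀ A : Finset ℕ, A ⊆ Icc 1 N → (N : ℝ) ≤ (A.card : ℝ) * Real.log N ^ C →
    ∀ b ∈ Icc 1 N, (∀ y : ℕ, Real.log N ^ K ≤ y → y ≤ N → |th A b y - (A.card : ℝ) * y| ≤ δ / 16 * ((A.card : ℝ) * y)) →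
    ∀ H : ℝ, Real.log N ^ (K + C + 21) ≤ H → H ≤ N →
      |(∑ a ∈ A, dens (a + b) H) / A.card - 1| ≤ δ ∧
        (1 / 4 - δ) * A.card ≤ ((A.filter (fun a => δ / 16 ≤ dens (a + b) H)).card : ℝ) := by
  obtain ⟨τ, rfl⟩ : ∃ τ, δ = 16 * τ := ⟨δ / 16, by ring⟩
  have hτ0 : 0 < τ := by linarith
  have hτ1 : τ ≤ 1 / 16 := by linarith
  have e16 : 16 * τ / 16 = τ := by ring
  rw [e16]
  filter_upwards [subsets τ hτ0 (by linarith), cond_dense C τ hτ0, ev_L (2 / τ + 4), ev_log (C + 1) (2 / τ) τ hτ0,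
    eventually_ge_atTop 16] with N h1 h2 h3 h4 hN16 A hA hAN b hb hgood H hH1 hH2
  have hNr : (16 : ℝ) ≤ N := by exact_mod_cast hN16
  have hN0 : (0 : ℝ) < N := by linarith
  have hN1 : (1 : ℝ) ≤ N := by linarith
  set ℓ := Real.log N with hℓ
  have hd1 : 0 < 2 / τ := by positivity
  have hℓ4 : 4 ≤ ℓ := by linarith
  have hℓ1 : 1 ≤ ℓ := by linarith
  have hℓ0 : 0 < ℓ := by linarith
  have hA' : ∀ a ∈ A, a ≤ N := fun a ha => (mem_Icc.1 (hA ha)).2
  have hA0 : (0 : ℝ) < A.card := by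
    by_contra hcon
    have : (A.card : ℝ) = 0 := le_antisymm (not_lt.1 hcon) (Nat.cast_nonneg _)
    rw [this, zero_mul] at hAN
    linarith
  have hb' := mem_Icc.1 hb
  have hHℓ : ℓ ≤ H := by
    refine le_trans ?_ hH1
    calc ℓ = ℓ ^ 1 := (pow_one _).symm
      _ ≤ _ := pow_le_pow_right₀ hℓ1 (by omega)
  have hH0 : 0 < H := by linarith
  obtain ⟨y, hy⟩ : ∃ y, y = ⌊H⌋₊ := ⟨_, rfl⟩
  have hyH : (y : ℝ) ≤ H := by rw [hy]; exact Nat.floor_le hH0.le
  have hyH2 : H < y + 1 := by rw [hy]; exact Nat.lt_floor_add_one H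
  have hτH : 1 ≤ τ * H := by
    have h5 : 2 / τ ≤ H := by linarith
    rw [div_le_iff₀ hτ0] at h5
    linarith
  have hyH3 : (1 - τ) * H ≤ y := by linarith
  have hyN : y ≤ N := by
    have : (y : ℝ) ≤ N := hyH.trans hH2
    exact_mod_cast this
  have hypow : ℓ ^ (K + C + 20) ≤ y := by
    have h5 : ℓ ^ (K + C + 20) * ℓ ≤ H := by rw [← pow_succ]; exact hH1
    have h6 : 1 ≤ ℓ ^ (K + C + 20) := one_le_pow₀ hℓ1
    nlinarith
  have hyK : ℓ ^ K ≤ y := (pow_le_pow_right₀ hℓ1 (by omega)).trans hypow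
  have hyC : ℓ ^ (C + 20) ≤ y := (pow_le_pow_right₀ hℓ1 (by omega)).trans hypow
  have hy1 : (1 : ℝ) ≤ y := (one_le_pow₀ hℓ1).trans hyK
  have hy1n : 1 ≤ y := by exact_mod_cast hy1
  have hyp : (0 : ℝ) < y := by linarith
  have hg := hgood y hyK hyN
  rw [abs_le] at hg
  -- the small elements of `A`
  obtain ⟨X, hX⟩ : ∃ X : ℕ, X = ⌈(N : ℝ) ^ (1 - τ)⌉₊ := ⟨_, rfl⟩
  have hX1 : (N : ℝ) ^ (1 - τ) ≤ X := by rw [hX]; exact Nat.le_ceil _
  have hpow1 : (1 : ℝ) ≤ (N : ℝ) ^ (1 - τ) := Real.one_le_rpow hN1 (by linarith)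
  have hX2 : (X : ℝ) ≤ 2 * (N : ℝ) ^ (1 - τ) := by
    have := Nat.ceil_lt_add_one (show 0 ≤ (N : ℝ) ^ (1 - τ) by positivity)
    rw [← hX] at this
    linarith
  have hXA : ℓ * X ≤ τ * A.card := by
    have h5 : (N : ℝ) ^ (1 - τ) * (2 / τ * ℓ ^ (C + 1)) ≤ A.card * ℓ ^ C := by
      calc (N : ℝ) ^ (1 - τ) * (2 / τ * ℓ ^ (C + 1)) ≤ (N : ℝ) ^ (1 - τ) * (N : ℝ) ^ τ := by gcongr
        _ = N := by rw [← Real.rpow_add hN0]; norm_num
        _ ≤ _ := hAN
    have h6 : (N : ℝ) ^ (1 - τ) * (2 / τ * ℓ) ≤ A.card := by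
      have h7 : ((N : ℝ) ^ (1 - τ) * (2 / τ * ℓ)) * ℓ ^ C ≤ A.card * ℓ ^ C := by
        refine le_trans (le_of_eq ?_) h5
        rw [pow_succ]; ring
      exact le_of_mul_le_mul_right h7 (by positivity)
    calc ℓ * X ≤ ℓ * (2 * (N : ℝ) ^ (1 - τ)) := by gcongr
      _ = τ * ((N : ℝ) ^ (1 - τ) * (2 / τ * ℓ)) := by field_simp
      _ ≤ _ := by gcongr
  have hXA' : (X : ℝ) ≤ τ * A.card := by
    refine le_trans ?_ hXA
    have : (0 : ℝ) ≤ X := Nat.cast_nonneg X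
    nlinarith
  have hlogX : ∀ a : ℕ, X ≤ a → (1 - τ) * ℓ ≤ Real.log ((a + b : ℕ) : ℝ) := by
    intro a ha
    rw [← Real.log_rpow hN0]
    apply Real.log_le_log (by positivity)
    refine hX1.trans ?_
    exact_mod_cast (by omega : X ≤ a + b)
  have hlog4 : Real.log ((4 * N : ℕ) : ℝ) ≤ (1 + τ) * ℓ := by
    push_cast
    rw [Real.log_mul (by norm_num) (by linarith)]
    have := log4
    have h5 : 2 / τ ≤ ℓ := by linarith
    rw [div_le_iff₀ hτ0] at h5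
    linarith
  have hcs := th_lower A b y N hA hb'.2 hyN _ hlog4
  have hcs1 : (1 - 2 * τ) * ((A.card : ℝ) * y) ≤ cs A b y * ℓ := by
    have h5 : (1 - τ) * ((A.card : ℝ) * y) ≤ (1 + τ) * (cs A b y * ℓ) := by linarith
    have h6 : (1 + τ) * ((1 - 2 * τ) * ((A.card : ℝ) * y)) ≤ (1 + τ) * (cs A b y * ℓ) := by
      refine le_trans ?_ h5
      have h7 : (0 : ℝ) ≤ A.card * y := by positivity
      have h8 : (1 + τ) * (1 - 2 * τ) ≤ 1 - τ := by nlinarith
      calc (1 + τ) * ((1 - 2 * τ) * ((A.card : ℝ) * y)) = ((1 + τ) * (1 - 2 * τ)) * (A.card * y) := by ring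
        _ ≤ _ := mul_le_mul_of_nonneg_right h8 h7
    exact le_of_mul_le_mul_left h6 (by linarith)
  have hdens : ∀ a, dens (a + b) H = (Real.log ((a + b : ℕ) : ℝ) / H) * (pn (a + b) y : ℝ) := by
    intro a
    rw [dens_eq (a + b) H hH0.le, ← hy]
  constructor
  · -- the mean value
    have hup : ∑ a ∈ A, dens (a + b) H ≤ (1 + τ) * A.card := by
      have e : ∑ a ∈ A, dens (a + b) H = (∑ a ∈ A, Real.log ((a + b : ℕ) : ℝ) * (pn (a + b) y : ℝ)) / H := by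
        rw [sum_div]
        apply sum_congr rfl
        intro a _
        rw [hdens]
        ring
      rw [e, div_le_iff₀ hH0]
      calc ∑ a ∈ A, Real.log ((a + b : ℕ) : ℝ) * (pn (a + b) y : ℝ) ≤ th A b y := th_upper A b y N hA
        _ ≤ (1 + τ) * (A.card * y) := by linarith
        _ ≤ (1 + τ) * (A.card * H) := by gcongr
        _ = _ := by ring
    have hlo : (1 - 5 * τ) * A.card ≤ ∑ a ∈ A, dens (a + b) H := by
      have h5 : ∑ a ∈ A.filter (fun a => X ≤ a), ((1 - τ) * ℓ / H) * (pn (a + b) y : ℝ) ≤ ∑ a ∈ A, dens (a + b) H := by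
        calc ∑ a ∈ A.filter (fun a => X ≤ a), ((1 - τ) * ℓ / H) * (pn (a + b) y : ℝ) ≤
            ∑ a ∈ A.filter (fun a => X ≤ a), dens (a + b) H := by
              apply sum_le_sum
              intro a ha
              rw [hdens]
              have := hlogX a (mem_filter.1 ha).2
              gcongr
          _ ≤ _ := sum_le_sum_of_subset_of_nonneg (filter_subset _ _) fun a _ _ => dens_nonneg _ _ hH0.le
      rw [← mul_sum] at h5
      have h6 := cs_above A b y X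
      refine le_trans ?_ h5
      have h7 : cs A b y - X * y ≤ ∑ a ∈ A.filter (fun a => X ≤ a), (pn (a + b) y : ℝ) := by linarith
      have h8 : (1 - 3 * τ) * ((A.card : ℝ) * y) ≤ ℓ * (cs A b y - X * y) := by
        have h9 : ℓ * X * y ≤ τ * A.card * y := mul_le_mul_of_nonneg_right hXA hyp.le
        have e : ℓ * (cs A b y - X * y) = cs A b y * ℓ - ℓ * X * y := by ring
        rw [e]
        linarith
      have h10 : 0 < (1 - τ) / H := div_pos (by linarith) hH0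
      calc (1 - 5 * τ) * (A.card : ℝ) ≤ ((1 - τ) * (1 - 3 * τ) * (1 - τ)) * A.card := by
            apply mul_le_mul_of_nonneg_right _ hA0.le
            nlinarith [mul_nonneg hτ0.le hτ0.le, mul_nonneg (mul_nonneg hτ0.le hτ0.le) (show (0 : ℝ) ≤ 1 / 16 - τ by linarith)]
        _ = ((1 - τ) / H) * ((1 - 3 * τ) * ((A.card : ℝ) * ((1 - τ) * H))) := by field_simp
        _ ≤ ((1 - τ) / H) * ((1 - 3 * τ) * ((A.card : ℝ) * y)) := by
            apply mul_le_mul_of_nonneg_left _ h10.le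
            apply mul_le_mul_of_nonneg_left _ (by linarith)
            gcongr
        _ ≤ ((1 - τ) / H) * (ℓ * (cs A b y - X * y)) := mul_le_mul_of_nonneg_left h8 h10.le
        _ ≤ ((1 - τ) / H) * (ℓ * ∑ a ∈ A.filter (fun a => X ≤ a), (pn (a + b) y : ℝ)) := by
            apply mul_le_mul_of_nonneg_left _ h10.le
            exact mul_le_mul_of_nonneg_left h7 hℓ0.le
        _ = _ := by ring
    rw [abs_le]
    constructor
    · have : 1 - 16 * τ ≤ (∑ a ∈ A, dens (a + b) H) / A.card := by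
        rw [le_div_iff₀ hA0]
        refine le_trans ?_ hlo
        apply mul_le_mul_of_nonneg_right _ hA0.le
        linarith
      linarith
    · have : (∑ a ∈ A, dens (a + b) H) / A.card ≤ 1 + 16 * τ := by
        rw [div_le_iff₀ hA0]
        refine hup.trans ?_
        apply mul_le_mul_of_nonneg_right _ hA0.le
        linarith
      linarith
  · -- the share
    obtain ⟨c1, c2⟩ := h2 A hAN y hyC
    have g2 := h1 A hA' b hb y hy1n c1 c2
    have g3 := many τ hτ0 (by linarith) (N := N) (2 * τ) (1 - 2 * τ) (by linarith) hy1n g2 hcs1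
    have g4 := card_above A (GG A N b y (2 * τ)) X (fun a => τ ≤ dens (a + b) H) (by
      unfold GG; exact filter_subset _ _) (by
      intro a ha hXa
      unfold GG at ha
      rw [mem_filter] at ha
      have h5 := ha.2
      rw [hdens]
      have h6 := hlogX a hXa
      have h7 : ((1 - τ) * ℓ / H) * (pn (a + b) y : ℝ) ≤ (Real.log ((a + b : ℕ) : ℝ) / H) * (pn (a + b) y : ℝ) := by gcongr
      refine le_trans ?_ h7
      calc τ ≤ (1 - τ) / H * (2 * τ * ((1 - τ) * H)) := by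
            have e : (1 - τ) / H * (2 * τ * ((1 - τ) * H)) = 2 * τ * ((1 - τ) * (1 - τ)) := by field_simp
            rw [e]
            have : (1 : ℝ) / 2 ≤ (1 - τ) * (1 - τ) := by nlinarith
            nlinarith
        _ ≤ (1 - τ) / H * (2 * τ * y) := by
            apply mul_le_mul_of_nonneg_left _ (div_nonneg (by linarith) hH0.le)
            apply mul_le_mul_of_nonneg_left hyH3 (by linarith)
        _ ≤ (1 - τ) / H * ((pn (a + b) y : ℝ) * ℓ) :=
            mul_le_mul_of_nonneg_left h5 (div_nonneg (by linarith) hH0.le)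
        _ = _ := by ring)
    have g5 : (1 / 4 - 16 * τ) * (A.card : ℝ) ≤ (1 - 2 * τ) / 4 * (1 - 2 * τ - 2 * τ - τ) * A.card - τ * A.card := by
      rw [← sub_mul]
      apply mul_le_mul_of_nonneg_right _ hA0.le
      nlinarith
    linarith

open Classical in
/-- **The average, sparse sets.** -/
theorem good_right (c : ℝ) (hc : 0 < c) (hc1 : c ≤ 1) (ε : ℝ) (hε : 0 < ε) (hε1 : ε < 1) (κ : ℝ)
    (hκ1 : κ ≤ ε / 32) (hκ2 : κ ≤ c / 64) (hκ3 : κ ≤ 1 / 40) : ∀ᶠ N : ℕ in atTop,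
    ∀ A : Finset ℕ, A ⊆ Icc 1 N → (N : ℝ) ^ (1 - κ) ≤ A.card →
    ∀ b ∈ Icc 1 N, (∀ y : ℕ, (N : ℝ) ^ (ε / 2) ≤ y → y ≤ N → c * ((A.card : ℝ) * y) ≤ th A b y) →
    ∀ H : ℝ, (N : ℝ) ^ ε ≤ H → H ≤ N →
      c / 64 ≤ (∑ a ∈ A, dens (a + b) H) / A.card ∧ (∑ a ∈ A, dens (a + b) H) / A.card ≤ 6 ∧
        c / 64 * A.card ≤ ((A.filter (fun a => c / 64 ≤ dens (a + b) H)).card : ℝ) := by
  obtain ⟨τ, hτ⟩ : ∃ τ, τ = c / 8 := ⟨_, rfl⟩
  have hτ0 : 0 < τ := by rw [hτ]; positivity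
  have hτ1 : τ ≤ 1 / 8 := by rw [hτ]; linarith
  filter_upwards [subsets τ hτ0 (by linarith), subsets (1 / 16) (by norm_num) (by norm_num),
    cond_sparse κ (ε / 2) τ (by linarith) (by linarith) hκ3 hτ0 (by rw [hτ]; linarith),
    cond_sparse κ (ε / 2) (1 / 16) (by linarith) (by linarith) hκ3 (by norm_num) (by linarith),
    ev_L (20 + 16 / c), ev_pow 2 (ε / 2) (by linarith), ev_log 1 (64 / c) (1 / 4) (by norm_num),
    eventually_ge_atTop 16] with N h1 h2 h3 h4 hL5 h6 h7 hN16 A hA hAN b hb hgood H hH1 hH2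
  have hNr : (16 : ℝ) ≤ N := by exact_mod_cast hN16
  have hN0 : (0 : ℝ) < N := by linarith
  have hN1 : (1 : ℝ) ≤ N := by linarith
  set ℓ := Real.log N with hℓ
  have hdc : 0 < 16 / c := by positivity
  have hℓ20 : 20 ≤ ℓ := by linarith
  have hℓ0 : 0 < ℓ := by linarith
  rw [pow_one] at h7
  have hA' : ∀ a ∈ A, a ≤ N := fun a ha => (mem_Icc.1 (hA ha)).2
  have hA0 : (0 : ℝ) < A.card := lt_of_lt_of_le (by positivity) hAN
  have hb' := mem_Icc.1 hb
  have hpe : (N : ℝ) ^ (ε / 2) * 2 ≤ H := by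
    calc (N : ℝ) ^ (ε / 2) * 2 ≤ (N : ℝ) ^ (ε / 2) * (N : ℝ) ^ (ε / 2) := by gcongr
      _ = (N : ℝ) ^ ε := by rw [← Real.rpow_add hN0]; congr 1; ring
      _ ≤ H := hH1
  have hH2' : 2 ≤ H := by
    have : (1 : ℝ) ≤ (N : ℝ) ^ (ε / 2) := Real.one_le_rpow hN1 (by linarith)
    linarith
  have hH0 : 0 < H := by linarith
  obtain ⟨y, hy⟩ : ∃ y, y = ⌊H⌋₊ := ⟨_, rfl⟩
  have hyH : (y : ℝ) ≤ H := by rw [hy]; exact Nat.floor_le hH0.le
  have hyH2 : H < y + 1 := by rw [hy]; exact Nat.lt_floor_add_one H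
  have hyH3 : H / 2 ≤ y := by linarith
  have hyN : y ≤ N := by
    have : (y : ℝ) ≤ N := hyH.trans hH2
    exact_mod_cast this
  have hye : (N : ℝ) ^ (ε / 2) ≤ y := by linarith
  have hy1 : (1 : ℝ) ≤ y := (Real.one_le_rpow hN1 (by linarith)).trans hye
  have hy1n : 1 ≤ y := by exact_mod_cast hy1
  have hyp : (0 : ℝ) < y := by linarith
  have hg := hgood y hye hyN
  -- the small elements of `A`
  obtain ⟨X, hX⟩ : ∃ X : ℕ, X = ⌈(N : ℝ) ^ (1 / 2 : ℝ)⌉₊ := ⟨_, rfl⟩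
  have hX1 : (N : ℝ) ^ (1 / 2 : ℝ) ≤ X := by rw [hX]; exact Nat.le_ceil _
  have hpow1 : (1 : ℝ) ≤ (N : ℝ) ^ (1 / 2 : ℝ) := Real.one_le_rpow hN1 (by norm_num)
  have hX2 : (X : ℝ) ≤ 2 * (N : ℝ) ^ (1 / 2 : ℝ) := by
    have := Nat.ceil_lt_add_one (show 0 ≤ (N : ℝ) ^ (1 / 2 : ℝ) by positivity)
    rw [← hX] at this
    linarith
  have hXA : ℓ * X ≤ c / 32 * A.card := by
    have h8 : (N : ℝ) ^ (1 / 2 : ℝ) * (64 / c * ℓ) ≤ A.card := by
      calc (N : ℝ) ^ (1 / 2 : ℝ) * (64 / c * ℓ) ≤ (N : ℝ) ^ (1 / 2 : ℝ) * (N : ℝ) ^ (1 / 4 : ℝ) := by gcongr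
        _ = (N : ℝ) ^ (3 / 4 : ℝ) := by rw [← Real.rpow_add hN0]; norm_num
        _ ≤ (N : ℝ) ^ (1 - κ) := Real.rpow_le_rpow_of_exponent_le hN1 (by linarith)
        _ ≤ _ := hAN
    calc ℓ * X ≤ ℓ * (2 * (N : ℝ) ^ (1 / 2 : ℝ)) := by gcongr
      _ = c / 32 * ((N : ℝ) ^ (1 / 2 : ℝ) * (64 / c * ℓ)) := by field_simp; norm_num
      _ ≤ _ := by gcongr
  have hlogX : ∀ a : ℕ, X ≤ a → ℓ / 2 ≤ Real.log ((a + b : ℕ) : ℝ) := by
    intro a ha
    have e : ℓ / 2 = Real.log ((N : ℝ) ^ (1 / 2 : ℝ)) := by rw [Real.log_rpow hN0]; ring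
    rw [e]
    apply Real.log_le_log (by positivity)
    refine hX1.trans ?_
    exact_mod_cast (by omega : X ≤ a + b)
  have hlog4 : Real.log ((4 * N : ℕ) : ℝ) ≤ 6 / 5 * ℓ := by
    push_cast
    rw [Real.log_mul (by norm_num) (by linarith)]
    have := log4
    linarith
  have hcs := th_lower A b y N hA hb'.2 hyN _ hlog4
  have hcs1 : c / 2 * ((A.card : ℝ) * y) ≤ cs A b y * ℓ := by
    have : 0 ≤ c * ((A.card : ℝ) * y) := by positivity
    linarith
  have hdens : ∀ a, dens (a + b) H = (Real.log ((a + b : ℕ) : ℝ) / H) * (pn (a + b) y : ℝ) := by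
    intro a
    rw [dens_eq (a + b) H hH0.le, ← hy]
  obtain ⟨c1, c2⟩ := h3 A hAN y hye
  obtain ⟨c3, c4⟩ := h4 A hAN y hye
  refine ⟨?_, ?_, ?_⟩
  · rw [le_div_iff₀ hA0]
    have h5 : ∑ a ∈ A.filter (fun a => X ≤ a), (ℓ / 2 / H) * (pn (a + b) y : ℝ) ≤ ∑ a ∈ A, dens (a + b) H := by
      calc ∑ a ∈ A.filter (fun a => X ≤ a), (ℓ / 2 / H) * (pn (a + b) y : ℝ) ≤
          ∑ a ∈ A.filter (fun a => X ≤ a), dens (a + b) H := by
            apply sum_le_sum
            intro a ha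
            rw [hdens]
            have := hlogX a (mem_filter.1 ha).2
            gcongr
        _ ≤ _ := sum_le_sum_of_subset_of_nonneg (filter_subset _ _) fun a _ _ => dens_nonneg _ _ hH0.le
    rw [← mul_sum] at h5
    have h6 := cs_above A b y X
    refine le_trans ?_ h5
    have h8 : c / 4 * ((A.card : ℝ) * y) ≤ ℓ * (∑ a ∈ A.filter (fun a => X ≤ a), (pn (a + b) y : ℝ)) := by
      have h9 : ℓ * X * y ≤ c / 32 * A.card * y := mul_le_mul_of_nonneg_right hXA hyp.le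
      have h10 : ℓ * (cs A b y - X * y) ≤ ℓ * (∑ a ∈ A.filter (fun a => X ≤ a), (pn (a + b) y : ℝ)) :=
        mul_le_mul_of_nonneg_left (by linarith) hℓ0.le
      have e : ℓ * (cs A b y - X * y) = cs A b y * ℓ - ℓ * X * y := by ring
      rw [e] at h10
      have : 0 ≤ c * ((A.card : ℝ) * y) := by positivity
      linarith
    calc c / 64 * (A.card : ℝ) ≤ (1 / (2 * H)) * (c / 4 * ((A.card : ℝ) * (H / 2))) := by
          have e : (1 / (2 * H)) * (c / 4 * ((A.card : ℝ) * (H / 2))) = c / 16 * A.card := by field_simp; norm_num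
          rw [e]
          apply mul_le_mul_of_nonneg_right _ hA0.le
          linarith
      _ ≤ (1 / (2 * H)) * (c / 4 * ((A.card : ℝ) * y)) := by gcongr
      _ ≤ (1 / (2 * H)) * (ℓ * (∑ a ∈ A.filter (fun a => X ≤ a), (pn (a + b) y : ℝ))) := by gcongr
      _ = _ := by field_simp
  · rw [div_le_iff₀ hA0]
    have g := h2 A hA' b hb y hy1n c3 c4 A (Subset.refl A)
    have g' : cs A b y * ℓ ≤ 5 * ((A.card : ℝ) * y) := by
      unfold cs
      refine g.trans ?_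
      have : (4 / (1 - 2 * (1 / 16)) * (A.card : ℝ) + 1 / 16 * A.card) ≤ 5 * A.card := by
        norm_num; linarith
      calc _ ≤ (5 * (A.card : ℝ)) * y := mul_le_mul_of_nonneg_right this (Nat.cast_nonneg _)
        _ = _ := by ring
    have hterm : ∀ a ∈ A, dens (a + b) H ≤ (6 / 5 * ℓ / H) * (pn (a + b) y : ℝ) := by
      intro a ha
      rw [hdens]
      have h8 : Real.log ((a + b : ℕ) : ℝ) ≤ 6 / 5 * ℓ := by
        refine le_trans (Real.log_le_log ?_ ?_) hlog4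
        · exact_mod_cast (by omega : 0 < a + b)
        · have := hA' a ha
          exact_mod_cast (by omega : a + b ≤ 4 * N)
      gcongr
    refine (sum_le_sum hterm).trans ?_
    rw [← mul_sum]
    calc (6 / 5 * ℓ / H) * ∑ a ∈ A, (pn (a + b) y : ℝ) = (6 / 5 / H) * (cs A b y * ℓ) := by unfold cs; ring
      _ ≤ (6 / 5 / H) * (5 * ((A.card : ℝ) * y)) := by gcongr
      _ ≤ (6 / 5 / H) * (5 * ((A.card : ℝ) * H)) := by gcongr
      _ = _ := by field_simp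
  · have g2 := h1 A hA' b hb y hy1n c1 c2
    have g3 := many τ hτ0 (by linarith) (N := N) (c / 8) (c / 2) (by positivity) hy1n g2 hcs1
    have g4 := card_above A (GG A N b y (c / 8)) X (fun a => c / 64 ≤ dens (a + b) H) (by
      unfold GG; exact filter_subset _ _) (by
      intro a ha hXa
      unfold GG at ha
      rw [mem_filter] at ha
      have h5 := ha.2
      rw [hdens]
      have h6 := hlogX a hXa
      have h7 : (ℓ / 2 / H) * (pn (a + b) y : ℝ) ≤ (Real.log ((a + b : ℕ) : ℝ) / H) * (pn (a + b) y : ℝ) := by gcongr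
      refine le_trans ?_ h7
      calc c / 64 ≤ (1 / (2 * H)) * (c / 8 * (H / 2)) := by
            have e : (1 / (2 * H)) * (c / 8 * (H / 2)) = c / 32 := by field_simp; norm_num
            rw [e]
            linarith
        _ ≤ (1 / (2 * H)) * (c / 8 * y) := by gcongr
        _ ≤ (1 / (2 * H)) * ((pn (a + b) y : ℝ) * ℓ) := by gcongr
        _ = _ := by field_simp)
    have hXA' : (X : ℝ) ≤ c / 64 * A.card := by
      have h8 : (2 : ℝ) * X ≤ ℓ * X := mul_le_mul_of_nonneg_right (by linarith) (Nat.cast_nonneg X)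
      linarith
    have g5 : c / 32 * (A.card : ℝ) ≤ (1 - 2 * τ) / 4 * (c / 2 - c / 8 - τ) * A.card := by
      apply mul_le_mul_of_nonneg_right _ hA0.le
      have hcτ : c = 8 * τ := by rw [hτ]; ring
      rw [hcτ]
      nlinarith
    linarith

end Pool.Agent.J4.H93.SF
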