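import Pool.Agent.J4.H93.SF.SF5
import Pool.Agent.J4.H93.PD.PD4

set_option autoImplicit false

/-! The values of polynomials at integers with restricted digits. -/

namespace Pool.Agent.J4.H93.SF
open Finset Filter
open Pool.Agent.H807R2.Dav
open Pool.Agent.W301.SS
open Pool.Agent.TH872.Sq
open Pool.Agent.TH872.GQ
open Pool.Agent.J4.H93.PD

/-- **The law of the values of a polynomial.** -/
theorem law_deg (b : ℕ) (hb : 2 ≤ b) (e : ℕ) (κ : ℤ) (hκ : κ ≠ 0) (F : ℕ) (hF : 1 ≤ F) : ∃ p : ℕ, ∃ C : ℝ, 1 ≤ p ∧ 0 < C ∧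
    ∀ k N : ℕ, b ^ ((e + 2) * k) ≤ N → N ≤ F * b ^ ((e + 2) * k) →
    ∀ D : ℕ → Finset ℕ, (∀ i < k, D i ⊆ range b ∧ 2 ≤ (D i).card) → ∀ (v : ℕ → ℤ) (G : ℝ → ℝ), PF (e + 2) κ G →
    (∀ n : ℕ, (v n : ℝ) = G n) → Law (4 * N + 1) p C (SD b D k) v := by
  classical
  obtain ⟨p, C, hp, hC, hmom⟩ := moment_deg b hb (1 / 2) (by norm_num) e κ hκ (5 * F) (by omega)
  refine ⟨p, C, hp, hC, fun k N hN1 hN2 D hD v G hG hv => ?_⟩
  have hpos : 1 ≤ b ^ ((e + 2) * k) := Nat.one_le_pow _ _ (by omega)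
  obtain ⟨M, hM⟩ : ∃ M, M = 4 * N + 1 := ⟨_, rfl⟩
  rw [← hM]
  have h2 := hmom k M (by omega) (by rw [hM, mul_assoc]; omega) (wD D k) (dig_wD b hb D k hD) 0 v G hG hv
  have hcard := SD_card_pos b hb D k hD
  obtain ⟨Z, hZ⟩ : ∃ Z : ℝ, Z = ((SD b D k).card : ℝ) := ⟨_, rfl⟩
  unfold Law
  rw [← hZ] at hcard ⊢
  have h3 : ∀ t ∈ range M, ‖FF (SD b D k) v ((t : ℝ) / M)‖ ^ (2 * p) =
      Z ^ (2 * p) * ‖∑ n ∈ range (b ^ k), ((P b (wD D k) 0 k n : ℝ) : ℂ) * ee ((t : ℝ) * ((v n : ℝ) / M))‖ ^ (2 * p) := by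
    intro t _
    have e1 : FF (SD b D k) v ((t : ℝ) / M) = ∑ n ∈ SD b D k, ee ((t : ℝ) * ((v n : ℝ) / M)) := by
      unfold FF
      apply sum_congr rfl
      intro n _
      congr 1
      ring
    have e3 : ∑ n ∈ range (b ^ k), ((P b (wD D k) 0 k n : ℝ) : ℂ) * ee ((t : ℝ) * ((v n : ℝ) / M)) =
        (((1 / Z : ℝ)) : ℂ) * ∑ n ∈ SD b D k, ee ((t : ℝ) * ((v n : ℝ) / M)) := by
      have h4 : ∀ n ∈ range (b ^ k), ((P b (wD D k) 0 k n : ℝ) : ℂ) * ee ((t : ℝ) * ((v n : ℝ) / M)) =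
          if n ∈ SD b D k then ((1 / Z : ℝ) : ℂ) * ee ((t : ℝ) * ((v n : ℝ) / M)) else 0 := by
        intro n hn
        rw [P_wD b hb D k hD n hn, ← hZ]
        split_ifs
        · rfl
        · simp
      rw [sum_congr rfl h4, ← sum_filter, mul_sum]
      apply sum_congr _ fun _ _ => rfl
      ext n
      rw [mem_filter]
      refine ⟨fun h => h.2, fun h => ⟨?_, h⟩⟩
      unfold SD at h
      exact (mem_filter.1 h).1
    rw [e1, e3, norm_mul, mul_pow, ← mul_assoc]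
    have e4 : ‖(((1 / Z : ℝ)) : ℂ)‖ = 1 / Z := by
      rw [Complex.norm_real, Real.norm_eq_abs, abs_of_pos (by positivity)]
    rw [e4, ← mul_pow, mul_one_div_cancel hcard.ne', one_pow, one_mul]
  rw [sum_congr rfl h3, ← mul_sum, mul_comm]
  exact mul_le_mul_of_nonneg_right h2 (by positivity)

lemma ncard_shifts (R : ℕ) : (Icc (-(R : ℤ)) R).card = 2 * R + 1 := by
  rw [Int.card_Icc]
  omega

open Classical in
/-- **Dense sets.** All the integers near the elements of a family. -/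
theorem nbhd_asym (C W p : ℕ) : ∃ K : ℕ, ∀ C₁ δ : ℝ, 0 < δ → δ ≤ 1 → ∀ᶠ N : ℕ in atTop,
    ∀ A : Finset ℕ, A ⊆ Icc 1 N → (N : ℝ) ≤ (A.card : ℝ) * Real.log N ^ C →
    ∀ (S : Finset ℕ) (v : ℕ → ℤ), Law (4 * N + 1) p C₁ S v →
    ((S.filter (fun n => ∃ m : ℕ, 1 ≤ m ∧ m ≤ N ∧ |(m : ℝ) - v n| ≤ Real.log N ^ W ∧ ∃ H : ℝ, Real.log N ^ K ≤ H ∧ H ≤ N ∧
      ¬ (|(∑ a ∈ A, dens (a + m) H) / A.card - 1| ≤ δ ∧
        (1 / 4 - δ) * A.card ≤ ((A.filter (fun a => δ / 16 ≤ dens (a + m) H)).card : ℝ)))).card : ℝ) * Real.log N ^ C ≤ S.card := by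
  obtain ⟨K, hK⟩ := transFam (C + W + 2) p
  refine ⟨K + (C + W + 2) + 21, fun C₁ δ hδ hδ1 => ?_⟩
  filter_upwards [hK C₁ (δ / 16) (by linarith) (by linarith), good_asym (C + W + 2) K δ hδ hδ1, ev_L 4] with
    N h1 h2 h3 A hA hAN S v hlaw
  set ℓ := Real.log N with hℓ
  have hℓ1 : 1 ≤ ℓ := by linarith
  have hℓ0 : 0 < ℓ := by linarith
  have hA' : ∀ a ∈ A, a ≤ N := fun a ha => (mem_Icc.1 (hA ha)).2
  have hAN' : (N : ℝ) ≤ (A.card : ℝ) * ℓ ^ (C + W + 2) := by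
    refine hAN.trans (mul_le_mul_of_nonneg_left ?_ (Nat.cast_nonneg _))
    exact pow_le_pow_right₀ hℓ1 (by omega)
  obtain ⟨R, hR⟩ : ∃ R : ℕ, R = ⌊ℓ ^ W⌋₊ := ⟨_, rfl⟩
  have hRle : (R : ℝ) ≤ ℓ ^ W := by rw [hR]; exact Nat.floor_le (by positivity)
  have hsub : S.filter (fun n => ∃ m : ℕ, 1 ≤ m ∧ m ≤ N ∧ |(m : ℝ) - v n| ≤ ℓ ^ W ∧ ∃ H : ℝ, ℓ ^ (K + (C + W + 2) + 21) ≤ H ∧ H ≤ N ∧
      ¬ (|(∑ a ∈ A, dens (a + m) H) / A.card - 1| ≤ δ ∧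
        (1 / 4 - δ) * A.card ≤ ((A.filter (fun a => δ / 16 ≤ dens (a + m) H)).card : ℝ))) ⊆
      (Icc (-(R : ℤ)) R).biUnion (fun s => ExF A S (fun n => v n + s) N K (δ / 16)) := by
    intro n hn
    rw [mem_filter] at hn
    obtain ⟨hnS, m, hm1, hm2, hmv, H, hH1, hH2, hnot⟩ := hn
    have hm : m ∈ Icc 1 N := mem_Icc.2 ⟨hm1, hm2⟩
    rw [mem_biUnion]
    have hs : |(m : ℤ) - v n| ≤ R := by
      rw [hR]
      have h5 : (((|(m : ℤ) - v n| : ℤ)) : ℝ) ≤ ℓ ^ W := by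
        push_cast
        exact hmv
      obtain ⟨q, hq⟩ : ∃ q : ℕ, |(m : ℤ) - v n| = q := ⟨(|(m : ℤ) - v n|).toNat, by rw [Int.toNat_of_nonneg (abs_nonneg _)]⟩
      rw [hq] at h5 ⊢
      have h6 : (q : ℝ) ≤ ℓ ^ W := by exact_mod_cast h5
      exact_mod_cast Nat.le_floor h6
    refine ⟨(m : ℤ) - v n, mem_Icc.2 (abs_le.1 hs), ?_⟩
    unfold ExF
    rw [mem_filter]
    have hm' := mem_Icc.1 hm
    have e : v n + ((m : ℤ) - v n) = m := by ring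
    refine ⟨hnS, ?_, ?_, ?_⟩
    · show 0 ≤ v n + ((m : ℤ) - v n)
      rw [e]; omega
    · show v n + ((m : ℤ) - v n) ≤ N
      rw [e]; exact_mod_cast hm'.2
    · show ∃ y : ℕ, Real.log N ^ K ≤ y ∧ y ≤ N ∧
        δ / 16 * ((A.card : ℝ) * y) < |th A (v n + ((m : ℤ) - v n)).toNat y - (A.card : ℝ) * y|
      rw [e, Int.toNat_natCast]
      by_contra hcon
      push Not at hcon
      apply hnot
      exact h2 A hA hAN' m hm (fun y hy1 hy2 => hcon y hy1 hy2) H hH1 hH2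
  have h5 : ∀ s ∈ Icc (-(R : ℤ)) R, ((ExF A S (fun n => v n + s) N K (δ / 16)).card : ℝ) * ℓ ^ (C + W + 2) ≤ S.card :=
    fun s _ => h1 A hA' hAN' S _ (hlaw.shift s)
  have h6 : ((S.filter (fun n => ∃ m : ℕ, 1 ≤ m ∧ m ≤ N ∧ |(m : ℝ) - v n| ≤ ℓ ^ W ∧ ∃ H : ℝ, ℓ ^ (K + (C + W + 2) + 21) ≤ H ∧ H ≤ N ∧
      ¬ (|(∑ a ∈ A, dens (a + m) H) / A.card - 1| ≤ δ ∧
        (1 / 4 - δ) * A.card ≤ ((A.filter (fun a => δ / 16 ≤ dens (a + m) H)).card : ℝ)))).card : ℝ) ≤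
      ∑ s ∈ Icc (-(R : ℤ)) R, ((ExF A S (fun n => v n + s) N K (δ / 16)).card : ℝ) := by
    exact_mod_cast (card_le_card hsub).trans card_biUnion_le
  have h7 : ((S.filter (fun n => ∃ m : ℕ, 1 ≤ m ∧ m ≤ N ∧ |(m : ℝ) - v n| ≤ ℓ ^ W ∧ ∃ H : ℝ, ℓ ^ (K + (C + W + 2) + 21) ≤ H ∧ H ≤ N ∧
      ¬ (|(∑ a ∈ A, dens (a + m) H) / A.card - 1| ≤ δ ∧
        (1 / 4 - δ) * A.card ≤ ((A.filter (fun a => δ / 16 ≤ dens (a + m) H)).card : ℝ)))).card : ℝ) * ℓ ^ C * ℓ ^ (W + 2) ≤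
      S.card * ℓ ^ (W + 2) := by
    rw [mul_assoc, ← pow_add, show C + (W + 2) = C + W + 2 by ring]
    calc _ ≤ (∑ s ∈ Icc (-(R : ℤ)) R, ((ExF A S (fun n => v n + s) N K (δ / 16)).card : ℝ)) * ℓ ^ (C + W + 2) :=
          mul_le_mul_of_nonneg_right h6 (by positivity)
      _ = ∑ s ∈ Icc (-(R : ℤ)) R, ((ExF A S (fun n => v n + s) N K (δ / 16)).card : ℝ) * ℓ ^ (C + W + 2) := by rw [sum_mul]
      _ ≤ ∑ s ∈ Icc (-(R : ℤ)) R, (S.card : ℝ) := sum_le_sum h5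
      _ = (2 * R + 1) * S.card := by
          rw [sum_const, ncard_shifts, nsmul_eq_mul]
          push_cast
          ring
      _ ≤ ℓ ^ (W + 2) * S.card := by
          apply mul_le_mul_of_nonneg_right _ (Nat.cast_nonneg _)
          rw [pow_add]
          have h8 : (1 : ℝ) ≤ ℓ ^ W := one_le_pow₀ hℓ1
          have h9 : (16 : ℝ) ≤ ℓ ^ 2 := by nlinarith
          have h10 : ℓ ^ W * 16 ≤ ℓ ^ W * ℓ ^ 2 := mul_le_mul_of_nonneg_left h9 (by linarith)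
          linarith
      _ = _ := by ring
  exact le_of_mul_le_mul_right h7 (by positivity)

open Classical in
/-- **Sparse sets.** All the integers near the elements of a family, with a power saving. -/
theorem nbhd_right : ∃ c : ℝ, 0 < c ∧ ∀ p : ℕ, 1 ≤ p → ∀ ε : ℝ, 0 < ε → ε < 1 → ∃ κ : ℝ, 0 < κ ∧ ∀ C₁ : ℝ, ∀ᶠ N : ℕ in atTop,
    ∀ A : Finset ℕ, A ⊆ Icc 1 N → (N : ℝ) ^ (1 - κ) ≤ A.card →
    ∀ (S : Finset ℕ) (v : ℕ → ℤ), Law (4 * N + 1) p C₁ S v →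
    ((S.filter (fun n => ∃ m : ℕ, 1 ≤ m ∧ m ≤ N ∧ |(m : ℝ) - v n| ≤ (N : ℝ) ^ κ ∧ ∃ H : ℝ, (N : ℝ) ^ ε ≤ H ∧ H ≤ N ∧
      ¬ (c ≤ (∑ a ∈ A, dens (a + m) H) / A.card ∧ (∑ a ∈ A, dens (a + m) H) / A.card ≤ 6 ∧
        c * A.card ≤ ((A.filter (fun a => c ≤ dens (a + m) H)).card : ℝ)))).card : ℝ) * (N : ℝ) ^ κ ≤ S.card := by
  obtain ⟨c, hc0, hc1, hmain⟩ := transPowFam
  refine ⟨c / 64, by positivity, fun p hp ε hε hε1 => ?_⟩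
  obtain ⟨κ₁, hκ0, hκ1, hκ2, hκ3⟩ := hmain p hp (ε / 2) (by linarith) (by linarith)
  obtain ⟨κ, hκ⟩ : ∃ κ, κ = min (κ₁ / 4) (c / 64) := ⟨_, rfl⟩
  have k0 : 0 < κ := by rw [hκ]; exact lt_min (by linarith) (by positivity)
  have k1 : κ ≤ κ₁ / 4 := by rw [hκ]; exact min_le_left _ _
  have k2 : κ ≤ c / 64 := by rw [hκ]; exact min_le_right _ _
  refine ⟨κ, k0, fun C₁ => ?_⟩
  filter_upwards [hκ3 C₁, good_right c hc0 hc1 ε hε hε1 κ (by linarith) k2 (by linarith), ev_pow 3 κ k0,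
    eventually_ge_atTop 16] with N h1 h2 h3 hN16 A hA hAN S v hlaw
  have hNr : (16 : ℝ) ≤ N := by exact_mod_cast hN16
  have hN0 : (0 : ℝ) < N := by linarith
  have hN1 : (1 : ℝ) ≤ N := by linarith
  have hA' : ∀ a ∈ A, a ≤ N := fun a ha => (mem_Icc.1 (hA ha)).2
  have hAN' : (N : ℝ) ^ (1 - κ₁) ≤ A.card :=
    (Real.rpow_le_rpow_of_exponent_le hN1 (by linarith)).trans hAN
  obtain ⟨R, hR⟩ : ∃ R : ℕ, R = ⌊(N : ℝ) ^ κ⌋₊ := ⟨_, rfl⟩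
  have hRle : (R : ℝ) ≤ (N : ℝ) ^ κ := by rw [hR]; exact Nat.floor_le (by positivity)
  obtain ⟨E, hE⟩ : ∃ E : Finset ℕ, E = S.filter (fun n => ∃ m : ℕ, 1 ≤ m ∧ m ≤ N ∧ |(m : ℝ) - v n| ≤ (N : ℝ) ^ κ ∧ ∃ H : ℝ, (N : ℝ) ^ ε ≤ H ∧ H ≤ N ∧
      ¬ (c / 64 ≤ (∑ a ∈ A, dens (a + m) H) / A.card ∧ (∑ a ∈ A, dens (a + m) H) / A.card ≤ 6 ∧
        c / 64 * A.card ≤ ((A.filter (fun a => c / 64 ≤ dens (a + m) H)).card : ℝ))) := ⟨_, rfl⟩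
  rw [← hE]
  have hsub : E ⊆ (Icc (-(R : ℤ)) R).biUnion (fun s => ExP A S (fun n => v n + s) N c (ε / 2)) := by
    intro n hn
    rw [hE, mem_filter] at hn
    obtain ⟨hnS, m, hm1, hm2, hmv, H, hH1, hH2, hnot⟩ := hn
    have hm : m ∈ Icc 1 N := mem_Icc.2 ⟨hm1, hm2⟩
    rw [mem_biUnion]
    have hs : |(m : ℤ) - v n| ≤ R := by
      rw [hR]
      have h5 : (((|(m : ℤ) - v n| : ℤ)) : ℝ) ≤ (N : ℝ) ^ κ := by
        push_cast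
        exact hmv
      obtain ⟨q, hq⟩ : ∃ q : ℕ, |(m : ℤ) - v n| = q := ⟨(|(m : ℤ) - v n|).toNat, by rw [Int.toNat_of_nonneg (abs_nonneg _)]⟩
      rw [hq] at h5 ⊢
      have h6 : (q : ℝ) ≤ (N : ℝ) ^ κ := by exact_mod_cast h5
      exact_mod_cast Nat.le_floor h6
    refine ⟨(m : ℤ) - v n, mem_Icc.2 (abs_le.1 hs), ?_⟩
    unfold ExP
    rw [mem_filter]
    have hm' := mem_Icc.1 hm
    have e : v n + ((m : ℤ) - v n) = m := by ring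
    refine ⟨hnS, ?_, ?_, ?_⟩
    · show 0 ≤ v n + ((m : ℤ) - v n)
      rw [e]; omega
    · show v n + ((m : ℤ) - v n) ≤ N
      rw [e]; exact_mod_cast hm'.2
    · show ∃ y : ℕ, (N : ℝ) ^ (ε / 2) ≤ y ∧ y ≤ N ∧ th A (v n + ((m : ℤ) - v n)).toNat y < c * ((A.card : ℝ) * y)
      rw [e, Int.toNat_natCast]
      by_contra hcon
      push Not at hcon
      apply hnot
      exact h2 A hA hAN m hm (fun y hy1 hy2 => hcon y hy1 hy2) H hH1 hH2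
  have h5 : ∀ s ∈ Icc (-(R : ℤ)) R, ((ExP A S (fun n => v n + s) N c (ε / 2)).card : ℝ) * (N : ℝ) ^ κ₁ ≤ S.card :=
    fun s _ => h1 A hA' hAN' S _ (hlaw.shift s)
  have h6 : (E.card : ℝ) ≤ ∑ s ∈ Icc (-(R : ℤ)) R, ((ExP A S (fun n => v n + s) N c (ε / 2)).card : ℝ) := by
    exact_mod_cast (card_le_card hsub).trans card_biUnion_le
  have hS0 : (0 : ℝ) ≤ S.card := Nat.cast_nonneg _
  have h7 : ((E.card : ℝ) * (N : ℝ) ^ κ) * (N : ℝ) ^ (3 * κ) ≤ S.card * (N : ℝ) ^ (3 * κ) := by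
    calc ((E.card : ℝ) * (N : ℝ) ^ κ) * (N : ℝ) ^ (3 * κ) = (E.card : ℝ) * (N : ℝ) ^ (4 * κ) := by
          rw [mul_assoc, ← Real.rpow_add hN0]
          congr 2
          ring
      _ ≤ (E.card : ℝ) * (N : ℝ) ^ κ₁ := by
          apply mul_le_mul_of_nonneg_left _ (Nat.cast_nonneg _)
          exact Real.rpow_le_rpow_of_exponent_le hN1 (by linarith)
      _ ≤ (∑ s ∈ Icc (-(R : ℤ)) R, ((ExP A S (fun n => v n + s) N c (ε / 2)).card : ℝ)) * (N : ℝ) ^ κ₁ :=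
          mul_le_mul_of_nonneg_right h6 (by positivity)
      _ = ∑ s ∈ Icc (-(R : ℤ)) R, ((ExP A S (fun n => v n + s) N c (ε / 2)).card : ℝ) * (N : ℝ) ^ κ₁ := by rw [sum_mul]
      _ ≤ ∑ s ∈ Icc (-(R : ℤ)) R, (S.card : ℝ) := sum_le_sum h5
      _ = (2 * R + 1) * S.card := by
          rw [sum_const, ncard_shifts, nsmul_eq_mul]
          push_cast
          ring
      _ ≤ (N : ℝ) ^ (3 * κ) * S.card := by
          apply mul_le_mul_of_nonneg_right _ hS0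
          have e : (N : ℝ) ^ (3 * κ) = (N : ℝ) ^ κ * (N : ℝ) ^ κ * (N : ℝ) ^ κ := by
            rw [← Real.rpow_add hN0, ← Real.rpow_add hN0]
            congr 1
            ring
          rw [e]
          have h8 : (9 : ℝ) ≤ (N : ℝ) ^ κ * (N : ℝ) ^ κ := by nlinarith
          nlinarith
      _ = _ := by ring
  exact le_of_mul_le_mul_right h7 (by positivity)

end Pool.Agent.J4.H93.SF
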